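import Pool.Agent.Y638.RF.NetDefs

set_option autoImplicit false

/-! # Circuits in which copying costs -/

namespace Pool.Agent.L7h80.NX

open Finset Pool.Agent.Y638.RF

/-- A gate with two different input wires `a`, `b`; its two results replace the bits of these two
wires. -/
structure Gate (W : ℕ) where
  a : Fin W
  b : Fin W
  ne : a ≠ b
  /-- the two results -/
  fn : Bool → Bool → Bool × Bool

/-- A change of one of the two arguments changes at most one of the two results. Examples: the
comparator `(x ∧ y, x ∨ y)`, with negations of any arguments and results, and all pairs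
`(f(x, y), constant)`. -/
def Nonexp (g : Bool → Bool → Bool × Bool) : Prop :=
  ∀ x y z, ((g x z).1 = (g y z).1 ∨ (g x z).2 = (g y z).2) ∧
    ((g z x).1 = (g z y).1 ∨ (g z x).2 = (g z y).2)

/-- The effect of a gate on the bits of the wires. -/
def Gate.app {W : ℕ} (g : Gate W) (x : Fin W → Bool) : Fin W → Bool :=
  Function.update (Function.update x g.a (g.fn (x g.a) (x g.b)).1) g.b (g.fn (x g.a) (x g.b)).2

/-- The effect of a sequence of gates. -/
def run {W : ℕ} : List (Gate W) → (Fin W → Bool) → (Fin W → Bool)
  | [], x => x
  | g :: gs, x => run gs (g.app x)

/-- The set of the items on which the bit of a wire may depend, after a gate. -/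
def Gate.dep {W : ℕ} {ι : Type} [DecidableEq ι] (g : Gate W) (d : Fin W → Finset ι) :
    Fin W → Finset ι :=
  Function.update (Function.update d g.a (d g.a ∪ d g.b)) g.b (d g.a ∪ d g.b)

open Classical in
/-- The price of a sequence of gates: nonexpansive gates are free, the price of any other gate is the
number of the items on which its arguments may depend. -/
noncomputable def price {W : ℕ} {ι : Type} [DecidableEq ι] :
    List (Gate W) → (Fin W → Finset ι) → ℕ
  | [], _ => 0
  | g :: gs, d => (if Nonexp g.fn then 0 else (d g.a ∪ d g.b).card) + price gs (g.dep d)

end Pool.Agent.L7h80.NX
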