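import Pool.Agent.Y638.RF.NetCore
import Pool.Agent.L7h80.NX.Defs

set_option autoImplicit false

/-! # Circuits over networks -/

namespace Pool.Agent.L7h80.NX

open Finset Pool.Agent.Y638.RF

/-- A circuit: the initial bits of the wires are the results of networks, then the gates are applied
one after the other, and the result is the final bit of one wire. -/
structure Circ (ι : Type) (D : ι → Type) (w q : ℕ) where
  /-- number of wires -/
  wires : ℕ
  /-- the initial bits -/
  init : Fin wires → Net ι D w q
  gates : List (Gate wires)
  out : Fin wires

namespace Circ

variable {ι : Type} {D : ι → Type} {w q : ℕ}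

/-- The result of the computation. -/
noncomputable def eval (C : Circ ι D w q) (x : ∀ i, D i) : Bool :=
  run C.gates (fun a => (C.init a).eval x) C.out

/-- The items which are seen by the network of a wire. -/
noncomputable def sees [Fintype ι] [DecidableEq ι] (C : Circ ι D w q) (a : Fin C.wires) :
    Finset ι :=
  univ.filter fun i => (C.init a).reads i ≠ 0

/-- The size: the sizes of the networks plus the price of the gates. -/
noncomputable def size [Fintype ι] [DecidableEq ι] (C : Circ ι D w q) : ℕ :=
  ∑ a, (C.init a).size + price C.gates C.sees

end Circ

end Pool.Agent.L7h80.NX
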