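import Mathlib
import Pool.Agent.L7h80.NX.Defs

set_option autoImplicit false
set_option linter.unusedSectionVars false

/-! # The number of the functions which are computed by circuits without copies -/

namespace Pool.Agent.L7h80.NX

open Finset

/-! ### nonexpansive functions of two bits -/

/-- fold the corner `(0, c)` onto the opposite corner -/
def fld : Option Bool → Bool → Bool → Bool × Bool
  | none, x, y => (x, y)
  | some c, x, y => if x = false ∧ y = c then (true, !c) else (x, y)

/-- signed permutations -/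
def iso (sw s1 s2 : Bool) (v : Bool × Bool) : Bool × Bool :=
  if sw then (xor s1 v.2, xor s2 v.1) else (xor s1 v.1, xor s2 v.2)

instance (g : Bool → Bool → Bool × Bool) : Decidable (Nonexp g) := by
  unfold Nonexp; infer_instance

/-- the function with the given values -/
def mk4 (a b c d : Bool × Bool) (x y : Bool) : Bool × Bool :=
  if x then (if y then d else c) else (if y then b else a)

lemma mk4_eq (g : Bool → Bool → Bool × Bool) :
    g = mk4 (g false false) (g false true) (g true false) (g true true) := by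
  funext x y
  cases x <;> cases y <;> rfl

set_option maxRecDepth 100000 in
lemma classify4 : ∀ a b c d : Bool × Bool, Nonexp (mk4 a b c d) →
    (∃ β, ∀ x y, (mk4 a b c d x y).1 = β) ∨ (∃ β, ∀ x y, (mk4 a b c d x y).2 = β) ∨
    ∃ (o : Option Bool) (sw s1 s2 : Bool), ∀ x y, mk4 a b c d x y = iso sw s1 s2 (fld o x y) := by
  decide +kernel

lemma classify (g : Bool → Bool → Bool × Bool) (h : Nonexp g) :
    (∃ β, ∀ x y, (g x y).1 = β) ∨ (∃ β, ∀ x y, (g x y).2 = β) ∨
    ∃ (o : Option Bool) (sw s1 s2 : Bool), ∀ x y, g x y = iso sw s1 s2 (fld o x y) := by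
  rw [mk4_eq g] at h ⊢
  exact classify4 _ _ _ _ h


/-! ### tokens -/

section tok

variable {X K : Type} [Fintype K] [LinearOrder K]

/-- operations on tokens -/
abbrev Op (K : Type) := K × K × (Bool → Bool → Bool × Bool)

/-- the effect of an operation -/
def act (o : Op K) (v : K → Bool) : K → Bool :=
  Function.update (Function.update v o.1 (o.2.2 (v o.1) (v o.2.1)).1) o.2.1
    (o.2.2 (v o.1) (v o.2.1)).2

lemma act_fst (p q : K) (h : p ≠ q) (f : Bool → Bool → Bool × Bool) (v : K → Bool) :
    act (p, q, f) v p = (f (v p) (v q)).1 := by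
  unfold act
  simp only
  rw [Function.update_of_ne h, Function.update_self]

lemma act_snd (p q : K) (f : Bool → Bool → Bool × Bool) (v : K → Bool) :
    act (p, q, f) v q = (f (v p) (v q)).2 := by
  unfold act
  simp only
  rw [Function.update_self]

lemma act_of (p q k : K) (hp : k ≠ p) (hq : k ≠ q) (f : Bool → Bool → Bool × Bool)
    (v : K → Bool) : act (p, q, f) v k = v k := by
  unfold act
  simp only
  rw [Function.update_of_ne hq, Function.update_of_ne hp]

open Classical in
/-- the patterns `(0, c)` which occur -/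
noncomputable def UU (F : X → K → Bool) : Finset (K × K × Bool) :=
  univ.filter fun t => t.1 < t.2.1 ∧ ∃ x, F x t.1 = false ∧ F x t.2.1 = t.2.2

open Classical in
/-- the tokens which are not constant -/
noncomputable def CC (F : X → K → Bool) : Finset K :=
  univ.filter fun p => ∃ x y, F x p ≠ F y p

/-- the potential -/
noncomputable def MM (F : X → K → Bool) : ℕ :=
  (UU F).card + (8 * Fintype.card K + 1) * (CC F).card

lemma mem_UU (F : X → K → Bool) (k l : K) (c : Bool) :
    (k, l, c) ∈ UU F ↔ k < l ∧ ∃ x, F x k = false ∧ F x l = c := by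
  classical
  unfold UU
  rw [mem_filter]
  simp

lemma mem_CC (F : X → K → Bool) (p : K) : p ∈ CC F ↔ ∃ x y, F x p ≠ F y p := by
  classical
  unfold CC
  rw [mem_filter]
  simp

lemma MM_le (F : X → K → Bool) : MM F ≤ 11 * Fintype.card K ^ 2 := by
  classical
  have h1 : (UU F).card ≤ Fintype.card K * (Fintype.card K * 2) := by
    refine (card_le_univ _).trans (le_of_eq ?_)
    rw [Fintype.card_prod, Fintype.card_prod, Fintype.card_bool]
  have h2 : (CC F).card ≤ Fintype.card K := card_le_univ _
  unfold MM
  have h3 := Nat.mul_le_mul_left (8 * Fintype.card K + 1) h2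
  rcases Nat.eq_zero_or_pos (Fintype.card K) with h | h
  · rw [h] at h1 h3 ⊢
    omega
  · nlinarith

/-- the patterns which concern `p` or `q` are few -/
lemma UU_le (F G : X → K → Bool) (p q : K) (h : ∀ k, k ≠ p → k ≠ q → ∀ x, F x k = G x k) :
    (UU G).card ≤ (UU F).card + 8 * Fintype.card K := by
  classical
  set T : Finset (K × K × Bool) := (({p, q} : Finset K) ×ˢ univ) ∪
    (univ ×ˢ (({p, q} : Finset K) ×ˢ univ)) with hT
  have hsub : UU G ⊆ UU F ∪ T := by
    rintro ⟨k, l, c⟩ hk
    rw [mem_UU] at hk
    rw [mem_union]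
    by_cases h1 : k = p ∨ k = q
    · right
      rw [hT, mem_union]
      left
      rw [mem_product]
      simp only [mem_insert, mem_singleton, mem_univ, and_true]
      exact h1
    · by_cases h2 : l = p ∨ l = q
      · right
        rw [hT, mem_union]
        right
        rw [mem_product, mem_product]
        simp only [mem_insert, mem_singleton, mem_univ, and_true, true_and]
        exact h2
      · left
        push Not at h1 h2
        rw [mem_UU]
        obtain ⟨hkl, x, hx1, hx2⟩ := hk
        exact ⟨hkl, x, by rw [h k h1.1 h1.2]; exact hx1, by rw [h l h2.1 h2.2]; exact hx2⟩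
  have hc : T.card ≤ 8 * Fintype.card K := by
    rw [hT]
    refine (card_union_le _ _).trans ?_
    rw [card_product, card_product, card_product, card_univ, Fintype.card_prod, Fintype.card_bool,
      card_univ, card_univ, Fintype.card_bool]
    have h2 : ({p, q} : Finset K).card ≤ 2 := card_le_two
    have h3 := Nat.mul_le_mul_right (Fintype.card K * 2) h2
    have h4 := Nat.mul_le_mul_left (Fintype.card K) (Nat.mul_le_mul_right 2 h2)
    omega
  exact (card_le_card hsub).trans ((card_union_le _ _).trans (by omega))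

/-- any operation increases the potential by little -/
lemma MM_act_le (F : X → K → Bool) (p q : K) (f : Bool → Bool → Bool × Bool) :
    MM (fun x => act (p, q, f) (F x)) ≤ MM F + (24 * Fintype.card K + 2) := by
  classical
  have h1 := UU_le F (fun x => act (p, q, f) (F x)) p q
    (fun k hp hq x => (act_of p q k hp hq f (F x)).symm)
  have h2 : (CC (fun x => act (p, q, f) (F x))).card ≤ (CC F).card + 2 := by
    have hsub : CC (fun x => act (p, q, f) (F x)) ⊆ CC F ∪ {p, q} := by
      intro k hk
      rw [mem_CC] at hk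
      rw [mem_union]
      by_cases hp : k = p
      · right; rw [hp]; simp
      · by_cases hq : k = q
        · right; rw [hq]; simp
        · left
          rw [mem_CC]
          obtain ⟨x, y, hxy⟩ := hk
          rw [act_of p q k hp hq, act_of p q k hp hq] at hxy
          exact ⟨x, y, hxy⟩
    refine (card_le_card hsub).trans ((card_union_le _ _).trans ?_)
    have : ({p, q} : Finset K).card ≤ 2 := card_le_two
    omega
  unfold MM
  have h3 := Nat.mul_le_mul_left (8 * Fintype.card K + 1) h2
  nlinarith

/-- an operation which makes a token constant -/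
lemma MM_act_lt (F : X → K → Bool) (p q : K) (f : Bool → Bool → Bool × Bool)
    (hp : p ∈ CC F) (hq : q ∈ CC F)
    (hc : ∃ r, (r = p ∨ r = q) ∧ ∀ x y, act (p, q, f) (F x) r = act (p, q, f) (F y) r) :
    MM (fun x => act (p, q, f) (F x)) + 1 ≤ MM F := by
  classical
  obtain ⟨r, hr, hrc⟩ := hc
  have h1 := UU_le F (fun x => act (p, q, f) (F x)) p q
    (fun k hp hq x => (act_of p q k hp hq f (F x)).symm)
  have h2 : (CC (fun x => act (p, q, f) (F x))).card + 1 ≤ (CC F).card := by
    have hrC : r ∈ CC F := by rcases hr with h | h <;> rw [h] <;> assumption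
    have hsub : CC (fun x => act (p, q, f) (F x)) ⊆ (CC F).erase r := by
      intro k hk
      rw [mem_CC] at hk
      rw [mem_erase]
      refine ⟨?_, ?_⟩
      · rintro rfl
        obtain ⟨x, y, hxy⟩ := hk
        exact hxy (hrc x y)
      · by_cases h3 : k = p
        · rw [h3]; exact hp
        · by_cases h4 : k = q
          · rw [h4]; exact hq
          · rw [mem_CC]
            obtain ⟨x, y, hxy⟩ := hk
            rw [act_of p q k h3 h4, act_of p q k h3 h4] at hxy
            exact ⟨x, y, hxy⟩
    have h3 := card_le_card hsub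
    rw [card_erase_of_mem hrC] at h3
    have h4 : 0 < (CC F).card := card_pos.2 ⟨r, hrC⟩
    omega
  unfold MM
  have h3 := Nat.mul_le_mul_left (8 * Fintype.card K + 1) h2
  nlinarith

/-- the fold -/
def fop (p q : K) (c : Bool) : Op K := (p, q, fld (some c))

lemma fold_vals (p q : K) (h : p < q) (c : Bool) (v : K → Bool) :
    (v p = false ∧ v q = c ∧ act (fop p q c) v p = true ∧ act (fop p q c) v q = !c) ∨
    (¬ (v p = false ∧ v q = c) ∧ act (fop p q c) v p = v p ∧ act (fop p q c) v q = v q) := by
  unfold fop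
  rw [act_fst p q h.ne, act_snd]
  by_cases hc : v p = false ∧ v q = c
  · left
    have e : fld (some c) (v p) (v q) = (true, !c) := if_pos hc
    rw [e]
    exact ⟨hc.1, hc.2, rfl, rfl⟩
  · right
    have e : fld (some c) (v p) (v q) = (v p, v q) := if_neg hc
    rw [e]
    exact ⟨hc, rfl, rfl⟩

/-- new patterns after a fold -/
lemma fold_new (F : X → K → Bool) (p q : K) (h : p < q) (c : Bool) (k l : K) (d : Bool)
    (hn : (k, l, d) ∈ UU (fun x => act (fop p q c) (F x))) (ho : (k, l, d) ∉ UU F) :
    (l = p ∧ d = true ∧ k < p ∧ (k, q, c) ∈ UU F ∧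
        (k, q, c) ∉ UU (fun x => act (fop p q c) (F x))) ∨
    (l = q ∧ d = !c ∧ k < p ∧ (k, p, false) ∈ UU F ∧
        (k, p, false) ∉ UU (fun x => act (fop p q c) (F x))) ∨
    (l = q ∧ d = !c ∧ p < k ∧ k < q ∧ (p, k, false) ∈ UU F ∧
        (p, k, false) ∉ UU (fun x => act (fop p q c) (F x))) ∨
    (k = q ∧ c = true ∧ (p, l, d) ∈ UU F ∧
        (p, l, d) ∉ UU (fun x => act (fop p q c) (F x))) := by
  rw [mem_UU] at hn ho
  obtain ⟨hkl, x, hx1, hx2⟩ := hn
  have hoo : ∀ y, F y k = false → F y l ≠ d := fun y h1 h2 => ho ⟨hkl, y, h1, h2⟩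
  rcases fold_vals p q h c (F x) with ⟨e1, e2, e3, e4⟩ | ⟨e1, e3, e4⟩
  swap
  · -- nothing has changed at `x`
    exfalso
    have hall : ∀ t, act (fop p q c) (F x) t = F x t := by
      intro t
      by_cases htp : t = p
      · rw [htp, e3]
      · by_cases htq : t = q
        · rw [htq, e4]
        · exact act_of p q t htp htq _ _
    rw [hall] at hx1 hx2
    exact hoo x hx1 hx2
  have hoth : ∀ (y : X) (t : K), t ≠ p → t ≠ q → act (fop p q c) (F y) t = F y t :=
    fun y t htp htq => act_of p q t htp htq _ _
  -- unaffected points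
  have hun : ∀ y, act (fop p q c) (F y) p = false → F y p = false ∧ F y q = !c := by
    intro y hy
    rcases fold_vals p q h c (F y) with ⟨f1, f2, f3, f4⟩ | ⟨f1, f3, f4⟩
    · rw [f3] at hy; cases hy
    · rw [f3] at hy
      refine ⟨hy, ?_⟩
      by_contra hne
      apply f1
      refine ⟨hy, ?_⟩
      cases hc : c <;> cases hq : F y q <;> simp_all
  have hun2 : ∀ y, act (fop p q c) (F y) q = c → F y p = true ∧ F y q = c := by
    intro y hy
    rcases fold_vals p q h c (F y) with ⟨f1, f2, f3, f4⟩ | ⟨f1, f3, f4⟩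
    · rw [f4] at hy
      cases c <;> cases hy
    · rw [f4] at hy
      refine ⟨?_, hy⟩
      by_contra hne
      apply f1
      refine ⟨?_, hy⟩
      cases hp : F y p
      · rfl
      · exact absurd hp hne
  have hkp : k ≠ p := by
    rintro rfl
    rw [e3] at hx1
    cases hx1
  by_cases hkq : k = q
  · -- `k = q`
    subst hkq
    have hlp : l ≠ p := (h.trans hkl).ne'
    have hlq : l ≠ k := hkl.ne'
    rw [e4] at hx1
    have hct : c = true := by cases c <;> simp_all
    rw [hoth x l hlp hlq] at hx2
    right; right; right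
    refine ⟨rfl, hct, ?_, ?_⟩
    · rw [mem_UU]
      exact ⟨h.trans hkl, x, e1, hx2⟩
    · rw [mem_UU]
      rintro ⟨-, y, hy1, hy2⟩
      obtain ⟨g1, g2⟩ := hun y hy1
      rw [hoth y l hlp hlq] at hy2
      rw [hct] at g2
      exact hoo y g2 hy2
  by_cases hlp : l = p
  · -- `l = p`
    subst hlp
    rw [hoth x k hkp hkq] at hx1
    rw [e3] at hx2
    left
    refine ⟨rfl, hx2.symm, hkl, ?_, ?_⟩
    · rw [mem_UU]
      exact ⟨hkl.trans h, x, hx1, e2⟩
    · rw [mem_UU]
      rintro ⟨-, y, hy1, hy2⟩
      obtain ⟨g1, g2⟩ := hun2 y hy2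
      rw [hoth y k hkp hkq] at hy1
      apply hoo y hy1
      rw [g1, hx2]
  by_cases hlq : l = q
  · subst hlq
    rw [hoth x k hkp hkq] at hx1
    rw [e4] at hx2
    rcases lt_or_gt_of_ne hkp with hlt | hgt
    · right; left
      refine ⟨rfl, hx2.symm, hlt, ?_, ?_⟩
      · rw [mem_UU]
        exact ⟨hlt, x, hx1, e1⟩
      · rw [mem_UU]
        rintro ⟨-, y, hy1, hy2⟩
        obtain ⟨g1, g2⟩ := hun y hy2
        rw [hoth y k hkp hkq] at hy1
        apply hoo y hy1
        rw [g2, hx2]
    · right; right; left
      refine ⟨rfl, hx2.symm, hgt, hkl, ?_, ?_⟩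
      · rw [mem_UU]
        exact ⟨hgt, x, e1, hx1⟩
      · rw [mem_UU]
        rintro ⟨-, y, hy1, hy2⟩
        obtain ⟨g1, g2⟩ := hun y hy1
        rw [hoth y k hkp hkq] at hy2
        apply hoo y hy2
        rw [g2, hx2]
  · exfalso
    rw [hoth x k hkp hkq] at hx1
    rw [hoth x l hlp hlq] at hx2
    exact hoo x hx1 hx2

/-- a fold which changes something makes the number of the patterns smaller -/
lemma fold_lt (F : X → K → Bool) (p q : K) (h : p < q) (c : Bool)
    (hx : ∃ x, F x p = false ∧ F x q = c) :
    (UU (fun x => act (fop p q c) (F x))).card + 1 ≤ (UU F).card := by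
  classical
  set N := UU (fun x => act (fop p q c) (F x)) with hN
  have hmem : (p, q, c) ∈ UU F \ N := by
    rw [mem_sdiff, hN, mem_UU, mem_UU]
    refine ⟨⟨h, hx⟩, ?_⟩
    rintro ⟨-, y, hy1, hy2⟩
    rcases fold_vals p q h c (F y) with ⟨f1, f2, f3, f4⟩ | ⟨f1, f3, f4⟩
    · rw [f3] at hy1; cases hy1
    · rw [f3] at hy1
      rw [f4] at hy2
      exact f1 ⟨hy1, hy2⟩
  have hinj : (N \ UU F).card ≤ ((UU F \ N).erase (p, q, c)).card := by
    refine card_le_card_of_injOn (fun t : K × K × Bool => if t.2.1 = p then (t.1, q, c) else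
      if t.2.1 = q then (if t.1 < p then (t.1, p, false) else (p, t.1, false)) else
        (p, t.2.1, t.2.2)) ?_ ?_
    · rintro ⟨k, l, d⟩ ht
      rw [mem_coe, mem_sdiff] at ht
      rw [mem_coe, mem_erase, mem_sdiff]
      rcases fold_new F p q h c k l d ht.1 ht.2 with ⟨a1, a2, a3, a4, a5⟩ | ⟨a1, a2, a3, a4, a5⟩ |
        ⟨a1, a2, a3, a4, a5, a6⟩ | ⟨a1, a2, a3, a4⟩
      · subst a1
        simp only [if_true]
        refine ⟨?_, a4, a5⟩
        intro he
        rw [Prod.mk.injEq] at he
        exact a3.ne he.1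
      · subst a1
        simp only [if_neg h.ne', if_true, if_pos a3]
        refine ⟨?_, a4, a5⟩
        intro he
        rw [Prod.mk.injEq, Prod.mk.injEq] at he
        exact h.ne he.2.1
      · subst a1
        simp only [if_neg h.ne', if_true, if_neg a3.not_gt]
        refine ⟨?_, a5, a6⟩
        intro he
        rw [Prod.mk.injEq, Prod.mk.injEq] at he
        exact a4.ne he.2.1
      · subst a1
        have hkl : k < l := ((mem_UU _ _ _ _).1 ht.1).1
        simp only [if_neg (h.trans hkl).ne', if_neg hkl.ne']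
        refine ⟨?_, a3, a4⟩
        intro he
        rw [Prod.mk.injEq, Prod.mk.injEq] at he
        exact hkl.ne' he.2.1
    · rintro ⟨k, l, d⟩ ht ⟨k', l', d'⟩ ht' heq
      rw [mem_coe, mem_sdiff] at ht ht'
      rcases fold_new F p q h c k l d ht.1 ht.2 with ⟨a1, a2, a3, a4, a5⟩ | ⟨a1, a2, a3, a4, a5⟩ |
        ⟨a1, a2, a3, a4, a5, a6⟩ | ⟨a1, a2, a3, a4⟩ <;>
      rcases fold_new F p q h c k' l' d' ht'.1 ht'.2 with ⟨b1, b2, b3, b4, b5⟩ |
        ⟨b1, b2, b3, b4, b5⟩ | ⟨b1, b2, b3, b4, b5, b6⟩ | ⟨b1, b2, b3, b4⟩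
      · subst a1; subst b1
        simp only [if_true, Prod.mk.injEq] at heq
        rw [heq.1, a2, b2]
      · subst a1; subst b1
        simp only [if_true, if_neg h.ne', if_pos b3, Prod.mk.injEq] at heq
        exact absurd heq.2.1 h.ne'
      · subst a1; subst b1
        simp only [if_true, if_neg h.ne', if_neg b3.not_gt, Prod.mk.injEq] at heq
        exact absurd heq.1 a3.ne
      · subst a1; subst b1
        have hkl : k' < l' := ((mem_UU _ _ _ _).1 ht'.1).1
        simp only [if_true, if_neg (h.trans hkl).ne', if_neg hkl.ne', Prod.mk.injEq] at heq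
        exact absurd heq.1 a3.ne
      · subst a1; subst b1
        simp only [if_true, if_neg h.ne', if_pos a3, Prod.mk.injEq] at heq
        exact absurd heq.2.1 h.ne
      · subst a1; subst b1
        simp only [if_true, if_neg h.ne', if_pos a3, if_pos b3, Prod.mk.injEq] at heq
        rw [heq.1, a2, b2]
      · subst a1; subst b1
        simp only [if_true, if_neg h.ne', if_pos a3, if_neg b3.not_gt, Prod.mk.injEq] at heq
        exact absurd heq.1 a3.ne
      · subst a1; subst b1
        have hkl : k' < l' := ((mem_UU _ _ _ _).1 ht'.1).1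
        simp only [if_true, if_neg h.ne', if_pos a3, if_neg (h.trans hkl).ne', if_neg hkl.ne',
          Prod.mk.injEq] at heq
        exact absurd heq.1 a3.ne
      · subst a1; subst b1
        simp only [if_true, if_neg h.ne', if_neg a3.not_gt, Prod.mk.injEq] at heq
        exact absurd heq.1 b3.ne'
      · subst a1; subst b1
        simp only [if_true, if_neg h.ne', if_neg a3.not_gt, if_pos b3, Prod.mk.injEq] at heq
        exact absurd heq.1 b3.ne'
      · subst a1; subst b1
        simp only [if_true, if_neg h.ne', if_neg a3.not_gt, if_neg b3.not_gt, Prod.mk.injEq] at heq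
        rw [heq.2.1, a2, b2]
      · subst a1; subst b1
        have hkl : k' < l' := ((mem_UU _ _ _ _).1 ht'.1).1
        simp only [if_true, if_neg h.ne', if_neg a3.not_gt, if_neg (h.trans hkl).ne',
          if_neg hkl.ne', Prod.mk.injEq] at heq
        rw [heq.2.1] at a4
        exact absurd hkl a4.not_gt
      · have hkl : k < l := ((mem_UU _ _ _ _).1 ht.1).1
        subst a1; subst b1
        simp only [if_true, if_neg (h.trans hkl).ne', if_neg hkl.ne', Prod.mk.injEq] at heq
        exact absurd heq.1 b3.ne'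
      · have hkl : k < l := ((mem_UU _ _ _ _).1 ht.1).1
        subst a1; subst b1
        simp only [if_true, if_neg (h.trans hkl).ne', if_neg hkl.ne', if_neg h.ne', if_pos b3,
          Prod.mk.injEq] at heq
        exact absurd heq.1 b3.ne'
      · have hkl : k < l := ((mem_UU _ _ _ _).1 ht.1).1
        subst a1; subst b1
        simp only [if_true, if_neg (h.trans hkl).ne', if_neg hkl.ne', if_neg h.ne',
          if_neg b3.not_gt, Prod.mk.injEq] at heq
        rw [← heq.2.1] at b4
        exact absurd hkl b4.not_gt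
      · have hkl : k < l := ((mem_UU _ _ _ _).1 ht.1).1
        have hkl' : k' < l' := ((mem_UU _ _ _ _).1 ht'.1).1
        subst a1; subst b1
        simp only [if_neg (h.trans hkl).ne', if_neg hkl.ne', if_neg (h.trans hkl').ne',
          if_neg hkl'.ne', Prod.mk.injEq] at heq
        rw [heq.2.1, heq.2.2]
  have h1 : ((UU F \ N).erase (p, q, c)).card + 1 = (UU F \ N).card := by
    rw [card_erase_of_mem hmem]
    have : 0 < (UU F \ N).card := card_pos.2 ⟨_, hmem⟩
    omega
  have h2 := card_sdiff_add_card_inter (UU F) N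
  have h3 := card_sdiff_add_card_inter N (UU F)
  rw [inter_comm] at h3
  omega

lemma CC_fold (F : X → K → Bool) (p q : K) (c : Bool) (hp : p ∈ CC F) (hq : q ∈ CC F) :
    (CC (fun x => act (fop p q c) (F x))).card ≤ (CC F).card := by
  classical
  apply card_le_card
  intro k hk
  by_cases h3 : k = p
  · rw [h3]; exact hp
  · by_cases h4 : k = q
    · rw [h4]; exact hq
    · rw [mem_CC] at hk ⊢
      obtain ⟨x, y, hxy⟩ := hk
      rw [fop, act_of p q k h3 h4, act_of p q k h3 h4] at hxy
      exact ⟨x, y, hxy⟩

lemma MM_fold (F : X → K → Bool) (p q : K) (h : p < q) (c : Bool) (hp : p ∈ CC F)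
    (hq : q ∈ CC F) (hx : ∃ x, F x p = false ∧ F x q = c) :
    MM (fun x => act (fop p q c) (F x)) + 1 ≤ MM F := by
  have h1 := fold_lt F p q h c hx
  have h2 := CC_fold F p q c hp hq
  unfold MM
  have h3 := Nat.mul_le_mul_left (8 * Fintype.card K + 1) h2
  omega

lemma fold_triv (F : X → K → Bool) (p q : K) (h : p < q) (c : Bool)
    (hx : ¬ ∃ x, F x p = false ∧ F x q = c) :
    (fun x => act (fop p q c) (F x)) = F := by
  funext x k
  rcases fold_vals p q h c (F x) with ⟨f1, f2, f3, f4⟩ | ⟨f1, f3, f4⟩
  · exact absurd ⟨x, f1, f2⟩ hx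
  · by_cases h3 : k = p
    · rw [h3, f3]
    · by_cases h4 : k = q
      · rw [h4, f4]
      · exact act_of p q k h3 h4 _ _

end tok

end Pool.Agent.L7h80.NX
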