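import Mathlib
import Pool.Agent.L7h80.NX.Core

set_option autoImplicit false
set_option linter.unusedSectionVars false

/-! # Simulation of circuits by operations on tokens -/

namespace Pool.Agent.L7h80.NX

open Finset

lemma Gate.app_a {W : ℕ} (g : Gate W) (x : Fin W → Bool) :
    g.app x g.a = (g.fn (x g.a) (x g.b)).1 := by
  unfold Gate.app
  rw [Function.update_of_ne g.ne, Function.update_self]

lemma Gate.app_b {W : ℕ} (g : Gate W) (x : Fin W → Bool) :
    g.app x g.b = (g.fn (x g.a) (x g.b)).2 := by
  unfold Gate.app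
  rw [Function.update_self]

lemma Gate.app_of {W : ℕ} (g : Gate W) (x : Fin W → Bool) (t : Fin W) (ha : t ≠ g.a)
    (hb : t ≠ g.b) : g.app x t = x t := by
  unfold Gate.app
  rw [Function.update_of_ne hb, Function.update_of_ne ha]

/-- exchange the two wires -/
def Gate.swap {W : ℕ} (g : Gate W) : Gate W :=
  ⟨g.b, g.a, g.ne.symm, fun x y => ((g.fn y x).2, (g.fn y x).1)⟩

lemma Gate.swap_app {W : ℕ} (g : Gate W) (x : Fin W → Bool) : g.swap.app x = g.app x := by
  funext t
  by_cases ha : t = g.a
  · rw [ha, g.app_a]
    exact g.swap.app_b x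
  · by_cases hb : t = g.b
    · rw [hb, g.app_b]
      exact g.swap.app_a x
    · rw [g.app_of x t ha hb]
      exact g.swap.app_of x t hb ha

lemma Gate.swap_nonexp {W : ℕ} (g : Gate W) (h : Nonexp g.fn) : Nonexp g.swap.fn := by
  intro x y z
  obtain ⟨h1, h2⟩ := h x y z
  exact ⟨h2.symm, h1.symm⟩

/-- `u` is constant -/
def Cst {X : Type} (u : X → Bool) : Prop := ∃ β, ∀ x, u x = β

lemma not_cst {X : Type} {u : X → Bool} (h : ¬ Cst u) : ∃ x y, u x ≠ u y := by
  by_contra hc
  push Not at hc
  apply h
  rcases isEmpty_or_nonempty X with he | ⟨⟨x0⟩⟩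
  · exact ⟨false, fun x => he.elim x⟩
  · exact ⟨u x0, fun x => hc x x0⟩

section sim

variable {X K : Type} [Fintype K] [LinearOrder K] {W : ℕ}

/-- The bit of each wire is constant, or it is the bit of its token up to a sign. -/
structure Inv (b : X → Fin W → Bool) (F : X → K → Bool) (own : Fin W → Option K)
    (sg : Fin W → Bool) : Prop where
  const : ∀ a, own a = none → Cst fun x => b x a
  live : ∀ a p, own a = some p → ∀ x, b x a = xor (sg a) (F x p)
  inj : ∀ a a' p, own a = some p → own a' = some p → a = a'

/-- `1` for tokens -/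
def oc (o : Option K) : ℕ := if o = none then 0 else 1

/-- the number of the wires with a token -/
def ownc (own : Fin W → Option K) : ℕ := ∑ a, oc (own a)

lemma oc_le (o : Option K) : oc o ≤ 1 := by
  unfold oc; split_ifs <;> omega

lemma oc_some (p : K) : oc (some p) = 1 := by
  unfold oc; simp

lemma oc_none : oc (none : Option K) = 0 := by
  unfold oc; simp

lemma ownc_split (own : Fin W → Option K) (a b : Fin W) (h : a ≠ b) :
    ownc own = oc (own a) + oc (own b) + ∑ t ∈ (univ.erase a).erase b, oc (own t) := by
  unfold ownc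
  rw [← Finset.add_sum_erase univ (fun t => oc (own t)) (mem_univ a),
    ← Finset.add_sum_erase (univ.erase a) (fun t => oc (own t)) (a := b)
      (mem_erase.2 ⟨h.symm, mem_univ _⟩)]
  ring

lemma ownc_update (own : Fin W → Option K) (a b : Fin W) (h : a ≠ b) (A B : Option K) :
    ownc (Function.update (Function.update own a A) b B) + oc (own a) + oc (own b) =
      ownc own + oc A + oc B := by
  rw [ownc_split own a b h, ownc_split (Function.update (Function.update own a A) b B) a b h]
  rw [Function.update_of_ne h, Function.update_self, Function.update_self]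
  have : ∑ t ∈ (univ.erase a).erase b,
      oc (Function.update (Function.update own a A) b B t) =
      ∑ t ∈ (univ.erase a).erase b, oc (own t) := by
    apply sum_congr rfl
    intro t ht
    rw [mem_erase, mem_erase] at ht
    rw [Function.update_of_ne ht.1, Function.update_of_ne ht.2.1]
  rw [this]
  ring

/-- a free token -/
lemma exists_free (own : Fin W → Option K) (h : ownc own < Fintype.card K) :
    ∃ r : K, ∀ a, own a ≠ some r := by
  classical
  by_contra hc
  push Not at hc
  choose f hf using hc
  have hinj : Function.Injective f := by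
    intro r r' hr
    have h1 := hf r
    rw [hr, hf r'] at h1
    exact (Option.some.inj h1).symm
  have h1 : Fintype.card K ≤ (univ.filter fun a : Fin W => own a ≠ none).card := by
    rw [← card_univ (α := K)]
    refine card_le_card_of_injOn f ?_ hinj.injOn
    intro r _
    rw [mem_coe, mem_filter]
    refine ⟨mem_univ _, ?_⟩
    rw [hf r]
    simp
  have h2 : ownc own = (univ.filter fun a : Fin W => own a ≠ none).card := by
    unfold ownc oc
    rw [card_filter]
    apply sum_congr rfl
    intro a _
    by_cases ha : own a = none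
    · simp [ha]
    · simp [ha]
  omega

/-- the new state -/
lemma Inv.upd {b : X → Fin W → Bool} {F F' : X → K → Bool} {own : Fin W → Option K}
    {sg : Fin W → Bool} (h : Inv b F own sg) (g : Gate W) (A B : Option K) (s1 s2 : Bool)
    (hF : ∀ t p, t ≠ g.a → t ≠ g.b → own t = some p → ∀ x, F' x p = F x p)
    (hA0 : A = none → Cst fun x => g.app (b x) g.a)
    (hA1 : ∀ p, A = some p → (∀ x, g.app (b x) g.a = xor s1 (F' x p)) ∧
      ∀ t, t ≠ g.a → t ≠ g.b → own t ≠ some p)
    (hB0 : B = none → Cst fun x => g.app (b x) g.b)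
    (hB1 : ∀ p, B = some p → (∀ x, g.app (b x) g.b = xor s2 (F' x p)) ∧
      ∀ t, t ≠ g.a → t ≠ g.b → own t ≠ some p)
    (hAB : ∀ p, A = some p → B ≠ some p) :
    Inv (fun x => g.app (b x)) F' (Function.update (Function.update own g.a A) g.b B)
      (Function.update (Function.update sg g.a s1) g.b s2) := by
  have ea : Function.update (Function.update own g.a A) g.b B g.a = A := by
    rw [Function.update_of_ne g.ne, Function.update_self]
  have eb : Function.update (Function.update own g.a A) g.b B g.b = B := Function.update_self ..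
  have et : ∀ t, t ≠ g.a → t ≠ g.b →
      Function.update (Function.update own g.a A) g.b B t = own t := by
    intro t h1 h2
    rw [Function.update_of_ne h2, Function.update_of_ne h1]
  have fa : Function.update (Function.update sg g.a s1) g.b s2 g.a = s1 := by
    rw [Function.update_of_ne g.ne, Function.update_self]
  have fb : Function.update (Function.update sg g.a s1) g.b s2 g.b = s2 := Function.update_self ..
  have ft : ∀ t, t ≠ g.a → t ≠ g.b →
      Function.update (Function.update sg g.a s1) g.b s2 t = sg t := by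
    intro t h1 h2
    rw [Function.update_of_ne h2, Function.update_of_ne h1]
  refine ⟨?_, ?_, ?_⟩
  · intro t ht
    by_cases h1 : t = g.a
    · rw [h1]
      rw [h1, ea] at ht
      exact hA0 ht
    · by_cases h2 : t = g.b
      · rw [h2]
        rw [h2, eb] at ht
        exact hB0 ht
      · rw [et t h1 h2] at ht
        obtain ⟨β, hβ⟩ := h.const t ht
        exact ⟨β, fun x => (g.app_of (b x) t h1 h2).trans (hβ x)⟩
  · intro t p ht x
    by_cases h1 : t = g.a
    · subst h1
      rw [ea] at ht
      rw [fa]
      exact (hA1 p ht).1 x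
    · by_cases h2 : t = g.b
      · subst h2
        rw [eb] at ht
        rw [fb]
        exact (hB1 p ht).1 x
      · rw [et t h1 h2] at ht
        rw [g.app_of (b x) t h1 h2, ft t h1 h2, hF t p h1 h2 ht]
        exact h.live t p ht x
  · intro t t' p ht ht'
    by_cases h1 : t = g.a
    · rw [h1, ea] at ht
      by_cases h1' : t' = g.a
      · rw [h1, h1']
      · by_cases h2' : t' = g.b
        · rw [h2', eb] at ht'
          exact absurd ht' (hAB p ht)
        · rw [et t' h1' h2'] at ht'
          exact absurd ht' ((hA1 p ht).2 t' h1' h2')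
    · by_cases h2 : t = g.b
      · rw [h2, eb] at ht
        by_cases h1' : t' = g.a
        · rw [h1', ea] at ht'
          exact absurd ht (hAB p ht')
        · by_cases h2' : t' = g.b
          · rw [h2, h2']
          · rw [et t' h1' h2'] at ht'
            exact absurd ht' ((hB1 p ht).2 t' h1' h2')
      · rw [et t h1 h2] at ht
        by_cases h1' : t' = g.a
        · rw [h1', ea] at ht'
          exact absurd ht ((hA1 p ht').2 t h1 h2)
        · by_cases h2' : t' = g.b
          · rw [h2', eb] at ht'
            exact absurd ht ((hB1 p ht').2 t h1 h2)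
          · rw [et t' h1' h2'] at ht'
            exact h.inj t t' p ht ht'

/-- One step: nothing happens to the tokens, or one operation. -/
def Stp (F F' : X → K → Bool) (m : ℕ) : Prop :=
  F' = F ∨ ∃ o : Op K, F' = (fun x => act o (F x)) ∧ MM F' + 1 ≤ MM F + m

lemma Inv.owner {b : X → Fin W → Bool} {F : X → K → Bool} {own : Fin W → Option K}
    {sg : Fin W → Bool} (h : Inv b F own sg) (a : Fin W) (hn : ¬ Cst fun x => b x a) :
    ∃ p, own a = some p ∧ p ∈ CC F := by
  rcases ho : own a with _ | p
  · exact absurd (h.const a ho) hn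
  · refine ⟨p, rfl, ?_⟩
    rw [mem_CC]
    obtain ⟨x, y, hxy⟩ := not_cst hn
    refine ⟨x, y, fun he => hxy ?_⟩
    rw [h.live a p ho x, h.live a p ho y, he]

/-- functions of one bit -/
lemma one_bit (u : Bool → Bool) : (∃ β, ∀ y, u y = β) ∨ ∀ y, u y = xor (u false) y := by
  by_cases h : u false = u true
  · left
    refine ⟨u false, fun y => ?_⟩
    cases y
    · rfl
    · exact h.symm
  · right
    intro y
    cases y
    · simp
    · cases h1 : u false <;> cases h2 : u true <;> simp_all

/-- one constant input, nonexpansive gate -/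
lemma Inv.step_one {b : X → Fin W → Bool} {F : X → K → Bool} {own : Fin W → Option K}
    {sg : Fin W → Bool} (h : Inv b F own sg) (g : Gate W) (hg : Nonexp g.fn)
    (hA : Cst fun x => b x g.a) :
    ∃ own' sg', Inv (fun x => g.app (b x)) F own' sg' ∧ ownc own' ≤ ownc own := by
  obtain ⟨α, hα⟩ := hA
  by_cases hB : Cst fun x => b x g.b
  · obtain ⟨β, hβ⟩ := hB
    refine ⟨_, _, h.upd g none none false false (fun _ _ _ _ _ _ => rfl) ?_ (by simp) ?_ (by simp)
      (by simp), ?_⟩
    · intro _
      exact ⟨(g.fn α β).1, fun x => by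
        beta_reduce
        rw [g.app_a, show b x g.a = α from hα x, show b x g.b = β from hβ x]⟩
    · intro _
      exact ⟨(g.fn α β).2, fun x => by
        beta_reduce
        rw [g.app_b, show b x g.a = α from hα x, show b x g.b = β from hβ x]⟩
    · have := ownc_update own g.a g.b g.ne none none
      rw [oc_none] at this
      omega
  · obtain ⟨p, hp, -⟩ := h.owner g.b hB
    have hbx : ∀ x, b x g.b = xor (sg g.b) (F x p) := fun x => h.live g.b p hp x
    have hfree : ∀ t, t ≠ g.a → t ≠ g.b → own t ≠ some p := fun t _ h2 h3 =>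
      h2 (h.inj t g.b p h3 hp)
    have hcnt : ∀ A B : Option K, oc A + oc B ≤ 1 →
        ownc (Function.update (Function.update own g.a A) g.b B) ≤ ownc own := by
      intro A B hAB
      have := ownc_update own g.a g.b g.ne A B
      rw [hp, oc_some] at this
      omega
    have hne := (hg false true α).2
    rcases hne with h1 | h2
    · -- the first result is constant
      have hc1 : Cst fun x => g.app (b x) g.a := by
        refine ⟨(g.fn α false).1, fun x => ?_⟩
        beta_reduce
        rw [g.app_a, show b x g.a = α from hα x]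
        cases b x g.b
        · rfl
        · exact h1.symm
      rcases one_bit (fun y => (g.fn α y).2) with ⟨β, hβ⟩ | hu
      · refine ⟨_, _, h.upd g none none false false (fun _ _ _ _ _ _ => rfl) (fun _ => hc1)
          (by simp) (fun _ => ⟨β, fun x => ?_⟩) (by simp) (by simp), hcnt _ _ (by
            rw [oc_none]; omega)⟩
        beta_reduce
        rw [g.app_b, show b x g.a = α from hα x]
        exact hβ _
      · refine ⟨_, _, h.upd g none (some p) false (xor (g.fn α false).2 (sg g.b))
          (fun _ _ _ _ _ _ => rfl) (fun _ => hc1) (by simp) (by simp) ?_ (by simp), hcnt _ _ (by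
            rw [oc_none, oc_some])⟩
        intro p' hp'
        obtain rfl := Option.some.inj hp'
        refine ⟨fun x => ?_, hfree⟩
        rw [g.app_b, show b x g.a = α from hα x, hbx]
        rw [show (g.fn α (xor (sg g.b) (F x p))).2 = _ from hu _, Bool.xor_assoc]
    · -- the second result is constant
      have hc2 : Cst fun x => g.app (b x) g.b := by
        refine ⟨(g.fn α false).2, fun x => ?_⟩
        beta_reduce
        rw [g.app_b, show b x g.a = α from hα x]
        cases b x g.b
        · rfl
        · exact h2.symm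
      rcases one_bit (fun y => (g.fn α y).1) with ⟨β, hβ⟩ | hu
      · refine ⟨_, _, h.upd g none none false false (fun _ _ _ _ _ _ => rfl)
          (fun _ => ⟨β, fun x => ?_⟩) (by simp) (fun _ => hc2) (by simp) (by simp), hcnt _ _ (by
            rw [oc_none]; omega)⟩
        beta_reduce
        rw [g.app_a, show b x g.a = α from hα x]
        exact hβ _
      · refine ⟨_, _, h.upd g (some p) none (xor (g.fn α false).1 (sg g.b)) false
          (fun _ _ _ _ _ _ => rfl) (by simp) ?_ (fun _ => hc2) (by simp) (by simp), hcnt _ _ (by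
            rw [oc_none, oc_some])⟩
        intro p' hp'
        obtain rfl := Option.some.inj hp'
        refine ⟨fun x => ?_, hfree⟩
        rw [g.app_a, show b x g.a = α from hα x, hbx]
        rw [show (g.fn α (xor (sg g.b) (F x p))).1 = _ from hu _, Bool.xor_assoc]

/-- two nonconstant inputs, nonexpansive gate, tokens in the right order -/
lemma Inv.step_two {b : X → Fin W → Bool} {F : X → K → Bool} {own : Fin W → Option K}
    {sg : Fin W → Bool} (h : Inv b F own sg) (g : Gate W) (hg : Nonexp g.fn) (p q : K)
    (hp : own g.a = some p) (hq : own g.b = some q) (hpC : p ∈ CC F) (hqC : q ∈ CC F)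
    (hpq : p < q) :
    ∃ F' own' sg', Inv (fun x => g.app (b x)) F' own' sg' ∧ Stp F F' 0 ∧
      ownc own' ≤ ownc own := by
  have hax : ∀ x, b x g.a = xor (sg g.a) (F x p) := fun x => h.live g.a p hp x
  have hbx : ∀ x, b x g.b = xor (sg g.b) (F x q) := fun x => h.live g.b q hq x
  have hfp : ∀ t, t ≠ g.a → t ≠ g.b → own t ≠ some p := fun t h1 _ h3 =>
    h1 (h.inj t g.a p h3 hp)
  have hfq : ∀ t, t ≠ g.a → t ≠ g.b → own t ≠ some q := fun t _ h2 h3 =>
    h2 (h.inj t g.b q h3 hq)
  have hcnt : ∀ A B : Option K,
      ownc (Function.update (Function.update own g.a A) g.b B) ≤ ownc own := by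
    intro A B
    have := ownc_update own g.a g.b g.ne A B
    rw [hp, hq, oc_some, oc_some] at this
    have h1 := oc_le A
    have h2 := oc_le B
    omega
  obtain ⟨G, hG⟩ : ∃ G : Bool → Bool → Bool × Bool, G = fun x y =>
    g.fn (xor (sg g.a) x) (xor (sg g.b) y) := ⟨_, rfl⟩
  have hGn : Nonexp G := by
    intro x y z
    rw [hG]
    exact ⟨(hg _ _ _).1, (hg _ _ _).2⟩
  have ga : ∀ x, g.app (b x) g.a = (G (F x p) (F x q)).1 := by
    intro x
    rw [g.app_a, hax, hbx, hG]
  have gb : ∀ x, g.app (b x) g.b = (G (F x p) (F x q)).2 := by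
    intro x
    rw [g.app_b, hax, hbx, hG]
  have hkeep : ∀ f : Bool → Bool → Bool × Bool, ∀ t r, t ≠ g.a → t ≠ g.b → own t = some r →
      ∀ x, act (p, q, f) (F x) r = F x r := by
    intro f t r h1 h2 h3 x
    refine act_of p q r ?_ ?_ _ _
    · rintro rfl; exact hfp t h1 h2 h3
    · rintro rfl; exact hfq t h1 h2 h3
  rcases classify G hGn with ⟨β, hβ⟩ | ⟨β, hβ⟩ | ⟨o, sw, s1, s2, hiso⟩
  · -- the first result is constant
    refine ⟨fun x => act (p, q, fun x y => (false, (G x y).2)) (F x), _, _,
      h.upd g none (some q) false false (hkeep _) (fun _ => ⟨β, fun x => ?_⟩) (by simp) (by simp)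
        ?_ (by simp), Or.inr ⟨_, rfl, ?_⟩, hcnt _ _⟩
    · beta_reduce
      rw [ga]
      exact hβ _ _
    · intro p' hp'
      obtain rfl := Option.some.inj hp'
      refine ⟨fun x => ?_, hfq⟩
      rw [gb]
      change _ = xor false (act (p, q, fun x y => (false, (G x y).2)) (F x) q)
      rw [act_snd, Bool.false_xor]
    · refine MM_act_lt F p q _ hpC hqC ⟨p, Or.inl rfl, fun x y => ?_⟩
      rw [act_fst p q hpq.ne, act_fst p q hpq.ne]
  · -- the second result is constant
    refine ⟨fun x => act (p, q, fun x y => ((G x y).1, false)) (F x), _, _,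
      h.upd g (some p) none false false (hkeep _) (by simp) ?_ (fun _ => ⟨β, fun x => ?_⟩)
        (by simp) (by simp), Or.inr ⟨_, rfl, ?_⟩, hcnt _ _⟩
    · intro p' hp'
      obtain rfl := Option.some.inj hp'
      refine ⟨fun x => ?_, hfp⟩
      rw [ga]
      change _ = xor false (act (p, q, fun x y => ((G x y).1, false)) (F x) p)
      rw [act_fst p q hpq.ne, Bool.false_xor]
    · beta_reduce
      rw [gb]
      exact hβ _ _
    · refine MM_act_lt F p q _ hpC hqC ⟨q, Or.inr rfl, fun x y => ?_⟩
      rw [act_snd, act_snd]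
  · -- a fold and a signed permutation
    obtain ⟨F', hF1, hF2, hF3, hF4⟩ : ∃ F' : X → K → Bool,
        (∀ x, F' x p = (fld o (F x p) (F x q)).1) ∧ (∀ x, F' x q = (fld o (F x p) (F x q)).2) ∧
        (∀ t r, t ≠ g.a → t ≠ g.b → own t = some r → ∀ x, F' x r = F x r) ∧ Stp F F' 0 := by
      rcases o with _ | c
      · exact ⟨F, fun _ => rfl, fun _ => rfl, fun _ _ _ _ _ _ => rfl, Or.inl rfl⟩
      · refine ⟨fun x => act (fop p q c) (F x), fun x => act_fst p q hpq.ne _ _,
          fun x => act_snd p q _ _, hkeep _, ?_⟩
        by_cases hx : ∃ x, F x p = false ∧ F x q = c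
        · exact Or.inr ⟨_, rfl, MM_fold F p q hpq c hpC hqC hx⟩
        · exact Or.inl (fold_triv F p q hpq c hx)
    cases sw
    · refine ⟨F', _, _, h.upd g (some p) (some q) s1 s2 hF3 (by simp) ?_ (by simp) ?_ ?_, hF4,
        hcnt _ _⟩
      · intro p' hp'
        obtain rfl := Option.some.inj hp'
        refine ⟨fun x => ?_, hfp⟩
        rw [ga, hiso, hF1]
        simp [iso]
      · intro p' hp'
        obtain rfl := Option.some.inj hp'
        refine ⟨fun x => ?_, hfq⟩
        rw [gb, hiso, hF2]
        simp [iso]
      · intro p' hp' hq'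
        obtain rfl := Option.some.inj hp'
        exact hpq.ne (Option.some.inj hq').symm
    · refine ⟨F', _, _, h.upd g (some q) (some p) s1 s2 hF3 (by simp) ?_ (by simp) ?_ ?_, hF4,
        hcnt _ _⟩
      · intro p' hp'
        obtain rfl := Option.some.inj hp'
        refine ⟨fun x => ?_, hfq⟩
        rw [ga, hiso, hF2]
        simp [iso]
      · intro p' hp'
        obtain rfl := Option.some.inj hp'
        refine ⟨fun x => ?_, hfp⟩
        rw [gb, hiso, hF1]
        simp [iso]
      · intro p' hp' hq'
        obtain rfl := Option.some.inj hp'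
        exact hpq.ne (Option.some.inj hq')

/-- nonexpansive gates -/
lemma Inv.step_nonexp {b : X → Fin W → Bool} {F : X → K → Bool} {own : Fin W → Option K}
    {sg : Fin W → Bool} (h : Inv b F own sg) (g : Gate W) (hg : Nonexp g.fn) :
    ∃ F' own' sg', Inv (fun x => g.app (b x)) F' own' sg' ∧ Stp F F' 0 ∧
      ownc own' ≤ ownc own := by
  have hswap : (fun x => g.swap.app (b x)) = fun x => g.app (b x) := by
    funext x
    exact g.swap_app _
  by_cases hA : Cst fun x => b x g.a
  · obtain ⟨own', sg', h1, h2⟩ := h.step_one g hg hA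
    exact ⟨F, own', sg', h1, Or.inl rfl, h2⟩
  · by_cases hB : Cst fun x => b x g.b
    · obtain ⟨own', sg', h1, h2⟩ := h.step_one g.swap (g.swap_nonexp hg) hB
      rw [hswap] at h1
      exact ⟨F, own', sg', h1, Or.inl rfl, h2⟩
    · obtain ⟨p, hp, hpC⟩ := h.owner g.a hA
      obtain ⟨q, hq, hqC⟩ := h.owner g.b hB
      have hpq : p ≠ q := by
        rintro rfl
        exact g.ne (h.inj _ _ _ hp hq)
      rcases lt_or_gt_of_ne hpq with hlt | hgt
      · exact h.step_two g hg p q hp hq hpC hqC hlt
      · obtain ⟨F', own', sg', h1, h2, h3⟩ :=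
          h.step_two g.swap (g.swap_nonexp hg) q p hq hp hqC hpC hgt
        rw [hswap] at h1
        exact ⟨F', own', sg', h1, h2, h3⟩

/-- all gates, one constant input -/
lemma Inv.step_exp_one {b : X → Fin W → Bool} {F : X → K → Bool} {own : Fin W → Option K}
    {sg : Fin W → Bool} (h : Inv b F own sg) (g : Gate W) (hA : Cst fun x => b x g.a)
    (hB : ¬ Cst fun x => b x g.b) (hk : ownc own < Fintype.card K) :
    ∃ F' own' sg', Inv (fun x => g.app (b x)) F' own' sg' ∧
      Stp F F' (24 * Fintype.card K + 3) ∧ ownc own' ≤ ownc own + 1 := by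
  obtain ⟨α, hα⟩ := hA
  obtain ⟨p, hp, hpC⟩ := h.owner g.b hB
  obtain ⟨r, hr⟩ := exists_free own hk
  have hpr : p ≠ r := by
    rintro rfl
    exact hr _ hp
  have hbx : ∀ x, b x g.b = xor (sg g.b) (F x p) := fun x => h.live g.b p hp x
  obtain ⟨f, hf⟩ : ∃ f : Bool → Bool → Bool × Bool, f = fun x _ => g.fn α (xor (sg g.b) x) :=
    ⟨_, rfl⟩
  refine ⟨fun x => act (p, r, f) (F x), _, _, h.upd g (some p) (some r) false false ?_ (by simp)
    ?_ (by simp) ?_ ?_, Or.inr ⟨_, rfl, ?_⟩, ?_⟩
  · intro t s h1 h2 h3 x
    refine act_of p r s ?_ ?_ _ _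
    · rintro rfl
      exact h2 (h.inj t g.b s h3 hp)
    · rintro rfl
      exact hr _ h3
  · intro p' hp'
    obtain rfl := Option.some.inj hp'
    refine ⟨fun x => ?_, fun t _ h2 h3 => h2 (h.inj t g.b p h3 hp)⟩
    rw [g.app_a, show b x g.a = α from hα x, hbx]
    change _ = xor false (act (p, r, f) (F x) p)
    rw [act_fst p r hpr, Bool.false_xor, hf]
  · intro p' hp'
    obtain rfl := Option.some.inj hp'
    refine ⟨fun x => ?_, fun t _ _ h3 => hr t h3⟩
    rw [g.app_b, show b x g.a = α from hα x, hbx]
    change _ = xor false (act (p, r, f) (F x) r)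
    rw [act_snd, Bool.false_xor, hf]
  · intro p' hp' hq'
    obtain rfl := Option.some.inj hp'
    exact hpr (Option.some.inj hq').symm
  · have := MM_act_le F p r f
    omega
  · have := ownc_update own g.a g.b g.ne (some p) (some r)
    rw [hp, oc_some, oc_some] at this
    omega

/-- all gates -/
lemma Inv.step_exp {b : X → Fin W → Bool} {F : X → K → Bool} {own : Fin W → Option K}
    {sg : Fin W → Bool} (h : Inv b F own sg) (g : Gate W)
    (hAB : ¬ ((Cst fun x => b x g.a) ∧ Cst fun x => b x g.b)) (hk : ownc own < Fintype.card K) :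
    ∃ F' own' sg', Inv (fun x => g.app (b x)) F' own' sg' ∧
      Stp F F' (24 * Fintype.card K + 3) ∧ ownc own' ≤ ownc own + 1 := by
  have hswap : (fun x => g.swap.app (b x)) = fun x => g.app (b x) := by
    funext x
    exact g.swap_app _
  by_cases hA : Cst fun x => b x g.a
  · exact h.step_exp_one g hA (fun hB => hAB ⟨hA, hB⟩) hk
  · by_cases hB : Cst fun x => b x g.b
    · obtain ⟨F', own', sg', h1, h2, h3⟩ := h.step_exp_one g.swap hB hA hk
      rw [hswap] at h1
      exact ⟨F', own', sg', h1, h2, h3⟩
    · obtain ⟨p, hp, hpC⟩ := h.owner g.a hA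
      obtain ⟨q, hq, hqC⟩ := h.owner g.b hB
      have hpq : p ≠ q := by
        rintro rfl
        exact g.ne (h.inj _ _ _ hp hq)
      have hax : ∀ x, b x g.a = xor (sg g.a) (F x p) := fun x => h.live g.a p hp x
      have hbx : ∀ x, b x g.b = xor (sg g.b) (F x q) := fun x => h.live g.b q hq x
      obtain ⟨G, hG⟩ : ∃ G : Bool → Bool → Bool × Bool, G = fun x y =>
        g.fn (xor (sg g.a) x) (xor (sg g.b) y) := ⟨_, rfl⟩
      refine ⟨fun x => act (p, q, G) (F x), _, _, h.upd g (some p) (some q) false false ?_
        (by simp) ?_ (by simp) ?_ ?_, Or.inr ⟨_, rfl, ?_⟩, ?_⟩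
      · intro t s h1 h2 h3 x
        refine act_of p q s ?_ ?_ _ _
        · rintro rfl
          exact h1 (h.inj t g.a s h3 hp)
        · rintro rfl
          exact h2 (h.inj t g.b s h3 hq)
      · intro p' hp'
        obtain rfl := Option.some.inj hp'
        refine ⟨fun x => ?_, fun t h1 _ h3 => h1 (h.inj t g.a p h3 hp)⟩
        rw [g.app_a, hax, hbx]
        change _ = xor false (act (p, q, G) (F x) p)
        rw [act_fst p q hpq, Bool.false_xor, hG]
      · intro p' hp'
        obtain rfl := Option.some.inj hp'
        refine ⟨fun x => ?_, fun t _ h2 h3 => h2 (h.inj t g.b q h3 hq)⟩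
        rw [g.app_b, hax, hbx]
        change _ = xor false (act (p, q, G) (F x) q)
        rw [act_snd, Bool.false_xor, hG]
      · intro p' hp' hq'
        obtain rfl := Option.some.inj hp'
        exact hpq (Option.some.inj hq').symm
      · have := MM_act_le F p q G
        omega
      · have := ownc_update own g.a g.b g.ne (some p) (some q)
        rw [hp, hq, oc_some, oc_some] at this
        omega

/-- gates with two constant inputs -/
lemma Inv.step_const {b : X → Fin W → Bool} {F : X → K → Bool} {own : Fin W → Option K}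
    {sg : Fin W → Bool} (h : Inv b F own sg) (g : Gate W)
    (hA : Cst fun x => b x g.a) (hB : Cst fun x => b x g.b) :
    ∃ own' sg', Inv (fun x => g.app (b x)) F own' sg' ∧ ownc own' ≤ ownc own := by
  obtain ⟨α, hα⟩ := hA
  obtain ⟨β, hβ⟩ := hB
  refine ⟨_, _, h.upd g none none false false (fun _ _ _ _ _ _ => rfl) ?_ (by simp) ?_ (by simp)
    (by simp), ?_⟩
  · intro _
    exact ⟨(g.fn α β).1, fun x => by
      beta_reduce
      rw [g.app_a, show b x g.a = α from hα x, show b x g.b = β from hβ x]⟩
  · intro _
    exact ⟨(g.fn α β).2, fun x => by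
      beta_reduce
      rw [g.app_b, show b x g.a = α from hα x, show b x g.b = β from hβ x]⟩
  · have := ownc_update own g.a g.b g.ne none none
    rw [oc_none] at this
    omega

end sim

end Pool.Agent.L7h80.NX
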