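import Mathlib
import Pool.Agent.L7h80.NX.Sim

set_option autoImplicit false
set_option linter.unusedSectionVars false

/-! # The number of subfunctions -/

namespace Pool.Agent.L7h80.NX

open Finset

section rch

variable {X K : Type} [Fintype K] [LinearOrder K]

/-- `F` arises from `F0` by at most `n` operations. -/
def Rch (F0 : X → K → Bool) : ℕ → (X → K → Bool) → Prop
  | 0, F => F = F0
  | n + 1, F => Rch F0 n F ∨ ∃ (o : Op K) (F' : X → K → Bool), Rch F0 n F' ∧
      F = fun x => act o (F' x)

lemma Rch.mono {F0 F : X → K → Bool} {n m : ℕ} (h : Rch F0 n F) (hnm : n ≤ m) : Rch F0 m F := by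
  induction m, hnm using Nat.le_induction with
  | base => exact h
  | succ m _ ih => exact Or.inl ih

lemma Rch.step {F0 F : X → K → Bool} {n : ℕ} (h : Rch F0 n F) (o : Op K) :
    Rch F0 (n + 1) (fun x => act o (F x)) := Or.inr ⟨o, F, h, rfl⟩

lemma card_op : Fintype.card (Op K) = 256 * Fintype.card K ^ 2 := by
  unfold Op
  rw [Fintype.card_prod, Fintype.card_prod]
  have : Fintype.card (Bool → Bool → Bool × Bool) = 256 := by
    simp only [Fintype.card_fun, Fintype.card_bool, Fintype.card_prod]
    norm_num
  rw [this]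
  ring

lemma Rch.card (F0 : X → K → Bool) (n : ℕ) : ∃ S : Finset (X → K → Bool),
    S.card ≤ (256 * Fintype.card K ^ 2 + 1) ^ n ∧ ∀ F, Rch F0 n F → F ∈ S := by
  classical
  induction n with
  | zero =>
    refine ⟨{F0}, by simp, fun F hF => ?_⟩
    rw [mem_singleton]
    exact hF
  | succ n ih =>
    obtain ⟨S, h1, h2⟩ := ih
    refine ⟨S ∪ (univ ×ˢ S).image (fun t : Op K × (X → K → Bool) => fun x => act t.1 (t.2 x)),
      ?_, ?_⟩
    · refine (card_union_le _ _).trans ?_
      have h3 : ((univ ×ˢ S).image
          (fun t : Op K × (X → K → Bool) => fun x => act t.1 (t.2 x))).card ≤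
          256 * Fintype.card K ^ 2 * S.card := by
        refine card_image_le.trans (le_of_eq ?_)
        rw [card_product, card_univ, card_op]
      have h4 : (256 * Fintype.card K ^ 2 + 1) * S.card ≤
          (256 * Fintype.card K ^ 2 + 1) * (256 * Fintype.card K ^ 2 + 1) ^ n :=
        Nat.mul_le_mul_left _ h1
      rw [pow_succ, mul_comm ((256 * Fintype.card K ^ 2 + 1) ^ n)]
      linarith
    · intro F hF
      rw [mem_union]
      rcases hF with hF | ⟨o, F', hF', rfl⟩
      · exact Or.inl (h2 F hF)
      · right
        rw [mem_image]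
        exact ⟨(o, F'), by rw [mem_product]; exact ⟨mem_univ _, h2 F' hF'⟩, rfl⟩

end rch

section count

variable {X : Type} {W : ℕ}

open Classical in
/-- the number of the gates with a price whose arguments are not both constant -/
noncomputable def expa : List (Gate W) → (X → Fin W → Bool) → ℕ
  | [], _ => 0
  | g :: gs, b => (if Nonexp g.fn ∨ ((Cst fun x => b x g.a) ∧ Cst fun x => b x g.b) then 0 else 1) +
      expa gs (fun x => g.app (b x))

theorem run_inv {K : Type} [Fintype K] [LinearOrder K] (F0 : X → K → Bool) (gs : List (Gate W)) :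
    ∀ (b : X → Fin W → Bool) (F : X → K → Bool) (own : Fin W → Option K) (sg : Fin W → Bool)
      (n N0 : ℕ), Inv b F own sg → Rch F0 n F →
      n + MM F + (24 * Fintype.card K + 4) * expa gs b ≤ N0 →
      ownc own + expa gs b ≤ Fintype.card K →
      ∃ F' own' sg', Inv (fun x => run gs (b x)) F' own' sg' ∧ Rch F0 N0 F' := by
  induction gs with
  | nil =>
    intro b F own sg n N0 h1 h2 h3 _
    exact ⟨F, own, sg, h1, h2.mono (by omega)⟩
  | cons g gs ih =>
    intro b F own sg n N0 h1 h2 h3 h4
    have hrun : (fun x => run (g :: gs) (b x)) = fun x => run gs (g.app (b x)) := rfl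
    rw [hrun]
    unfold expa at h3 h4
    by_cases hg : Nonexp g.fn
    · rw [if_pos (Or.inl hg), Nat.zero_add] at h3 h4
      obtain ⟨F', own', sg', a1, a2, a3⟩ := h1.step_nonexp g hg
      rcases a2 with rfl | ⟨o, ho, hM⟩
      · exact ih _ _ _ _ n N0 a1 h2 (by omega) (by omega)
      · refine ih _ _ _ _ (n + 1) N0 a1 ?_ (by omega) (by omega)
        rw [ho]
        exact h2.step o
    · by_cases hc : (Cst fun x => b x g.a) ∧ Cst fun x => b x g.b
      · rw [if_pos (Or.inr hc), Nat.zero_add] at h3 h4
        obtain ⟨own', sg', a1, a3⟩ := h1.step_const g hc.1 hc.2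
        exact ih _ _ _ _ n N0 a1 h2 (by omega) (by omega)
      · rw [if_neg (by tauto)] at h3 h4
        obtain ⟨F', own', sg', a1, a2, a3⟩ := h1.step_exp g hc (by omega)
        rw [mul_add, mul_one] at h3
        rcases a2 with rfl | ⟨o, ho, hM⟩
        · exact ih _ _ _ _ n N0 a1 h2 (by omega) (by omega)
        · refine ih _ _ _ _ (n + 1) N0 a1 ?_ (by omega) (by omega)
          rw [ho]
          exact h2.step o

/-- the bits of the wires, with free bits on the wires in `L` -/
def mix (L : Finset (Fin W)) (v : L → Bool) (z : Fin W → Bool) (a : Fin W) : Bool :=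
  if h : a ∈ L then v ⟨a, h⟩ else z a

/-- the bound for the number of functions -/
def NB (k : ℕ) : ℕ := 2 * (256 * k ^ 2 + 1) ^ (39 * k ^ 2 + 1)

lemma NB_mono {k l : ℕ} (h : k ≤ l) : NB k ≤ NB l := by
  unfold NB
  apply Nat.mul_le_mul_left
  have h1 : k ^ 2 ≤ l ^ 2 := Nat.pow_le_pow_left h 2
  calc (256 * k ^ 2 + 1) ^ (39 * k ^ 2 + 1) ≤ (256 * l ^ 2 + 1) ^ (39 * k ^ 2 + 1) :=
        Nat.pow_le_pow_left (by omega) _
    _ ≤ (256 * l ^ 2 + 1) ^ (39 * l ^ 2 + 1) := Nat.pow_le_pow_right (by omega) (by omega)

/-- **The number of the functions of the bits on the wires in `L`** which arise when the other bits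
are fixed. -/
theorem count (gs : List (Gate W)) (o : Fin W) (L : Finset (Fin W)) (c : ℕ) :
    ∃ S : Finset ((L → Bool) → Bool), S.card ≤ NB (L.card + c) ∧
      ∀ z : Fin W → Bool, expa gs (fun v : L → Bool => mix L v z) ≤ c →
        (fun v : L → Bool => run gs (mix L v z) o) ∈ S := by
  classical
  obtain ⟨k, hk⟩ : ∃ k, k = L.card + c := ⟨_, rfl⟩
  rw [← hk]
  have e : L ≃ Fin L.card := L.equivFin
  have hlt : ∀ j : L, (e j).val < k := fun j => by have := (e j).2; omega
  obtain ⟨F0, hF0⟩ : ∃ F0 : (L → Bool) → Fin k → Bool, F0 = fun v j =>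
    if h : j.val < L.card then v (e.symm ⟨j.val, h⟩) else false := ⟨_, rfl⟩
  obtain ⟨own, hown⟩ : ∃ own : Fin W → Option (Fin k), own = fun a =>
    if h : a ∈ L then some ⟨(e ⟨a, h⟩).val, hlt _⟩ else none := ⟨_, rfl⟩
  obtain ⟨T, hT1, hT2⟩ := Rch.card F0 (39 * k ^ 2)
  rw [Fintype.card_fin] at hT1
  refine ⟨{fun _ => false, fun _ => true} ∪ (T ×ˢ (univ : Finset (Fin k × Bool))).image
    (fun t => fun v => xor t.2.2 (t.1 v t.2.1)), ?_, ?_⟩
  · refine (card_union_le _ _).trans ?_
    have h1 : ({fun _ => false, fun _ => true} : Finset ((L → Bool) → Bool)).card ≤ 2 :=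
      card_le_two
    have h2 : ((T ×ˢ (univ : Finset (Fin k × Bool))).image
        (fun t => fun v => xor t.2.2 (t.1 v t.2.1))).card ≤ T.card * (k * 2) := by
      refine card_image_le.trans (le_of_eq ?_)
      rw [card_product, card_univ, Fintype.card_prod, Fintype.card_bool, Fintype.card_fin]
    have h3 : T.card * (k * 2) ≤ (256 * k ^ 2 + 1) ^ (39 * k ^ 2) * (k * 2) :=
      Nat.mul_le_mul_right _ hT1
    obtain ⟨Z, hZ⟩ : ∃ Z, Z = (256 * k ^ 2 + 1) ^ (39 * k ^ 2) := ⟨_, rfl⟩
    have hZ1 : 1 ≤ Z := by rw [hZ]; exact Nat.one_le_pow _ _ (by omega)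
    unfold NB
    rw [pow_succ, ← hZ]
    rw [← hZ] at h3
    have h4 : k ≤ 256 * k ^ 2 := by nlinarith
    have h5 : Z * (k + 1) ≤ Z * (256 * k ^ 2 + 1) := Nat.mul_le_mul_left _ (by omega)
    nlinarith
  · intro z hz
    have hinv : Inv (fun v : L → Bool => mix L v z) F0 own (fun _ => false) := by
      refine ⟨?_, ?_, ?_⟩
      · intro a ha
        by_cases h : a ∈ L
        · rw [hown] at ha
          simp only [dif_pos h] at ha
          cases ha
        · exact ⟨z a, fun v => by simp only [mix, dif_neg h]⟩
      · intro a p ha v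
        by_cases h : a ∈ L
        · rw [hown] at ha
          simp only [dif_pos h] at ha
          obtain rfl := Option.some.inj ha
          simp only [mix, dif_pos h, Bool.false_xor, hF0]
          rw [dif_pos (e ⟨a, h⟩).2]
          congr 1
          exact (e.symm_apply_apply _).symm
        · rw [hown] at ha
          simp only [dif_neg h] at ha
          cases ha
      · intro a a' p ha ha'
        by_cases h : a ∈ L
        · by_cases h' : a' ∈ L
          · rw [hown] at ha ha'
            simp only [dif_pos h] at ha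
            simp only [dif_pos h'] at ha'
            rw [← ha'] at ha
            have h1 := Option.some.inj ha
            rw [Fin.mk.injEq] at h1
            have h2 := e.injective (Fin.ext h1)
            rw [Subtype.mk.injEq] at h2
            exact h2
          · rw [hown] at ha'
            simp only [dif_neg h'] at ha'
            cases ha'
        · rw [hown] at ha
          simp only [dif_neg h] at ha
          cases ha
    have hcount : ownc own = L.card := by
      unfold ownc oc
      rw [hown, ← Finset.sum_filter_add_sum_filter_not univ (fun a => a ∈ L)]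
      have h1 : ∑ a ∈ univ.filter (fun a => a ∈ L),
          (if (if h : a ∈ L then some (⟨(e ⟨a, h⟩).val, hlt _⟩ : Fin k) else none) = none
            then 0 else 1) = L.card := by
        rw [Finset.sum_congr rfl (g := fun _ => 1)]
        · rw [sum_const, smul_eq_mul, mul_one]
          congr 1
          ext a
          simp
        · intro a ha
          rw [mem_filter] at ha
          rw [dif_pos ha.2]
          simp
      have h2 : ∑ a ∈ univ.filter (fun a => ¬ a ∈ L),
          (if (if h : a ∈ L then some (⟨(e ⟨a, h⟩).val, hlt _⟩ : Fin k) else none) = none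
            then 0 else 1) = 0 := by
        apply sum_eq_zero
        intro a ha
        rw [mem_filter] at ha
        rw [dif_neg ha.2]
        simp
      rw [h1, h2, add_zero]
    have hM := MM_le F0
    rw [Fintype.card_fin] at hM
    have hc : c ≤ k := by omega
    obtain ⟨F', own', sg', h1, h2⟩ := run_inv F0 gs _ F0 own (fun _ => false) 0 (39 * k ^ 2) hinv
      rfl (by
        rw [Fintype.card_fin]
        have h3 : (24 * k + 4) * expa gs (fun v : L → Bool => mix L v z) ≤ (24 * k + 4) * k :=
          Nat.mul_le_mul_left _ (by omega)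
        obtain ⟨E, hE⟩ : ∃ E, E = (24 * k + 4) * expa gs (fun v : L → Bool => mix L v z) :=
          ⟨_, rfl⟩
        obtain ⟨M0, hM0⟩ : ∃ M0, M0 = MM F0 := ⟨_, rfl⟩
        rw [← hE] at h3
        rw [← hM0] at hM
        rw [← hE, ← hM0]
        have h4 : k ≤ k ^ 2 := by nlinarith
        nlinarith) (by
        rw [Fintype.card_fin, hcount]
        omega)
    rw [mem_union]
    rcases ho : own' o with _ | p
    · left
      obtain ⟨β, hβ⟩ := h1.const o ho
      rw [mem_insert, mem_singleton]
      cases β
      · left
        funext v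
        exact hβ v
      · right
        funext v
        exact hβ v
    · right
      rw [mem_image]
      refine ⟨(F', p, sg' o), ?_, ?_⟩
      · rw [mem_product]
        exact ⟨hT2 F' h2, mem_univ _⟩
      · funext v
        exact (h1.live o p ho v).symm

end count

end Pool.Agent.L7h80.NX
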