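import Pool.Agent.Y638.RF.NetGen

set_option autoImplicit false

/-! # A general lower bound from the number of subfunctions -/

namespace Pool.Agent.L7h80.NX

open Finset Pool.Agent.TH697.Form Pool.Agent.TH697.Row Pool.Agent.Y638.RF

variable {ι : Type} {D : ι → Type} [DecidableEq ι] {T : Type} [Fintype T] {Ω : Type} [Fintype Ω]

/-- `G` has few subfunctions in terms of the measure `rd`. -/
def FewSub (K : ℕ) (α β L : ℝ) (G : (∀ i, D i) → Bool) (rd : ι → ℕ) : Prop :=
  ∀ (i : ι) (A : Finset (D i)), A.card ≤ K → ∃ S : Finset ({d // d ∈ A} → Bool),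
    Real.log S.card ≤ (α + β * (rd i : ℝ) ^ 2 + L * rd i) * Real.log 2 ∧
    ∀ z : (∀ i, D i), (fun v : {d // d ∈ A} => G (Function.update z i v.1)) ∈ S

open Classical in
/-- The lower bound for random functions with few subfunctions. -/
theorem gen_lower (μ : Ω → ℝ) (hμ : IsProb μ) (F : Ω → (∀ i, D i) → Bool)
    (P : (∀ i, D i) → Prop) (f : (∀ i, D i) → Bool)
    (hF : ApproximatesOn μ F P f) (K : ℕ) (α β L : ℝ) (hα : 0 ≤ α) (hβ : 0 ≤ β) (hL0 : 0 ≤ L)
    (rd : Ω → ι → ℕ) (hsub : ∀ ω, FewSub K α β L (F ω) (rd ω)) (δ : ℝ)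
    (I : Finset ι) (V : ℝ) (hV : ∀ ω, ∑ i ∈ I, (rd ω i : ℝ) ≤ V)
    (h : ∀ i ∈ I, Asks T K δ P f i) (θ : ℝ) (hθ : 0 < θ)
    (hsmall : α + β * (40 * θ) ^ 2 + L * (40 * θ) < (17 / 300 - δ) * Fintype.card T) :
    (I.card : ℝ) * θ ≤ V := by
  have h6 : (0 : ℝ) < Real.log 2 := Real.log_pos (by norm_num)
  -- every item is read often
  have h1 : ∀ i ∈ I, θ ≤ ∑ ω, μ ω * (rd ω i : ℝ) := by
    intro i hi
    by_contra hlt
    push Not at hlt
    obtain ⟨A, r, Q, R, hA, hQA, hQ, hP, hf⟩ := h i hi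
    obtain ⟨y, hy⟩ : ∃ y : {d // d ∈ A} → D i, y = fun v => v.1 := ⟨_, rfl⟩
    choose S hS1 hS2 using fun ω => hsub ω i A hA
    obtain ⟨bad, hbad⟩ : ∃ bad : Finset Ω, bad = univ.filter (fun ω => 40 * θ < (rd ω i : ℝ)) :=
      ⟨_, rfl⟩
    have hmark : ∑ ω ∈ bad, μ ω ≤ 1 / 40 := by
      have h2 : ∑ ω ∈ bad, μ ω * (40 * θ) ≤ ∑ ω, μ ω * (rd ω i : ℝ) := by
        calc ∑ ω ∈ bad, μ ω * (40 * θ) ≤ ∑ ω ∈ bad, μ ω * (rd ω i : ℝ) := by
              apply sum_le_sum
              intro ω hω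
              rw [hbad, mem_filter] at hω
              exact mul_le_mul_of_nonneg_left hω.2.le (hμ.nonneg ω)
          _ ≤ _ := sum_le_sum_of_subset_of_nonneg (subset_univ _) (fun ω _ _ =>
              mul_nonneg (hμ.nonneg ω) (Nat.cast_nonneg _))
      rw [← sum_mul] at h2
      have h3 : (∑ ω ∈ bad, μ ω) * (40 * θ) < θ := lt_of_le_of_lt h2 hlt
      nlinarith
    obtain ⟨G, hG⟩ : ∃ G : Ω → (∀ i, D i) → Bool, ∀ ω x, G ω x =
        if ω ∈ bad then false else F ω x := ⟨_, fun _ _ => rfl⟩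
    have hGerr : ∀ x, P x → ∑ ω ∈ univ.filter (fun ω => G ω x ≠ f x), μ ω ≤ 1 / 3 + 1 / 40 := by
      intro x hx
      have h2 : univ.filter (fun ω => G ω x ≠ f x) ⊆
          univ.filter (fun ω => F ω x ≠ f x) ∪ bad := by
        intro ω hω
        rw [mem_filter] at hω
        rw [mem_union, mem_filter]
        by_cases hb : ω ∈ bad
        · exact Or.inr hb
        · left
          have h3 := hω.2
          rw [hG, if_neg hb] at h3
          exact ⟨mem_univ _, h3⟩
      calc ∑ ω ∈ univ.filter (fun ω => G ω x ≠ f x), μ ω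
          ≤ ∑ ω ∈ univ.filter (fun ω => F ω x ≠ f x) ∪ bad, μ ω :=
            sum_le_sum_of_subset_of_nonneg h2 (fun ω _ _ => hμ.nonneg ω)
        _ ≤ ∑ ω ∈ univ.filter (fun ω => F ω x ≠ f x), μ ω + ∑ ω ∈ bad, μ ω := by
            rw [← sum_union_inter]
            have : 0 ≤ ∑ ω ∈ univ.filter (fun ω => F ω x ≠ f x) ∩ bad, μ ω :=
              sum_nonneg fun ω _ => hμ.nonneg ω
            linarith
        _ ≤ _ := add_le_add (hF x hx) hmark
    have h2 := gen_err' μ hμ G P f (1 / 3 + 1 / 40) hGerr i y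
      (fun ω => if ω ∈ bad then {fun _ => false} else S ω) (fun ω z => by
        by_cases hb : ω ∈ bad
        · rw [if_pos hb, mem_singleton]
          funext v
          rw [hG, if_pos hb]
        · rw [if_neg hb]
          have : (fun v => G ω (Function.update z i (y v))) =
              fun v : {d // d ∈ A} => F ω (Function.update z i v.1) := by
            funext v
            rw [hG, if_neg hb, hy]
          rw [this]
          exact hS2 ω z) r
      (fun t z => ⟨Q t z, hQA t z⟩) (fun t z z' hz => Subtype.ext (hQ t z z' hz)) R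
      (fun t z => by rw [hy]; exact hP t z) δ (by rw [hy]; exact hf)
    have h3 : ∀ ω, μ ω * Real.log ((if ω ∈ bad then {fun _ => false} else S ω : Finset _).card : ℝ) ≤
        μ ω * ((α + β * (40 * θ) ^ 2 + L * (40 * θ)) * Real.log 2) := by
      intro ω
      apply mul_le_mul_of_nonneg_left _ (hμ.nonneg ω)
      by_cases hb : ω ∈ bad
      · rw [if_pos hb, card_singleton, Nat.cast_one, Real.log_one]
        positivity
      · rw [if_neg hb]
        have hr : (rd ω i : ℝ) ≤ 40 * θ := by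
          rw [hbad, mem_filter] at hb
          push Not at hb
          exact hb (mem_univ _)
        refine (hS1 ω).trans ?_
        apply mul_le_mul_of_nonneg_right _ h6.le
        have h7 : (rd ω i : ℝ) ^ 2 ≤ (40 * θ) ^ 2 := by
          apply pow_le_pow_left₀ (by positivity) hr
        have h8 := mul_le_mul_of_nonneg_left h7 hβ
        have h9 := mul_le_mul_of_nonneg_left hr hL0
        linarith
    have h4 := h2.trans (sum_le_sum fun ω (_ : ω ∈ (univ : Finset Ω)) => h3 ω)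
    rw [← sum_mul, hμ.sum_one, one_mul] at h4
    have h5 := le_of_mul_le_mul_right h4 h6
    have h7 : (415 / 1000 - (1 / 3 + 1 / 40) - δ) * (Fintype.card T : ℝ) =
        (17 / 300 - δ) * Fintype.card T := by ring
    rw [h7] at h5
    linarith
  have h2 := sum_le_sum h1
  rw [sum_const, nsmul_eq_mul, sum_comm] at h2
  refine h2.trans ?_
  have e1 : V = ∑ ω, μ ω * V := by
    rw [← sum_mul, hμ.sum_one, one_mul]
  rw [e1]
  apply sum_le_sum
  intro ω _
  rw [← mul_sum]
  exact mul_le_mul_of_nonneg_left (hV ω) (hμ.nonneg ω)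

/-- The same with a closed form, for a function or its complement. -/
theorem gen_bound (μ : Ω → ℝ) (hμ : IsProb μ) (F : Ω → (∀ i, D i) → Bool)
    (P : (∀ i, D i) → Prop) (f : (∀ i, D i) → Bool)
    (hF : ApproximatesOn μ F P f ∨ ApproximatesOn μ (fun ω x => !F ω x) P f)
    (K : ℕ) (α Λ L : ℝ) (hα : 0 ≤ α) (hΛ : 0 < Λ) (hL0 : 0 ≤ L)
    (rd : Ω → ι → ℕ) (hsub : ∀ ω, FewSub K α (43 * Λ) L (F ω) (rd ω))
    (I : Finset ι) (V : ℝ) (hV : ∀ ω, ∑ i ∈ I, (rd ω i : ℝ) ≤ V)
    (h : ∀ i ∈ I, Asks T K 0 P f i) (t : ℝ) (ht : 0 < t) (hT : t ≤ Fintype.card T)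
    (hαt : α ≤ t / 25) :
    (I.card : ℝ) * t ≤ 4000 * (Real.sqrt (Λ * t) + L) * V := by
  obtain ⟨u, hu⟩ : ∃ u : ℝ, u = Real.sqrt (Λ * t) := ⟨_, rfl⟩
  have hu2 : u ^ 2 = Λ * t := by rw [hu]; exact Real.sq_sqrt (by positivity)
  have hu0 : 0 < u := by rw [hu]; exact Real.sqrt_pos.2 (by positivity)
  obtain ⟨θ, hθ⟩ : ∃ θ : ℝ, θ = t / (4000 * (u + L)) := ⟨_, rfl⟩
  have hθ0 : 0 < θ := by
    rw [hθ]
    positivity
  have hθu : 40 * θ ≤ t / (100 * u) := by
    rw [hθ]
    have : 40 * (t / (4000 * (u + L))) = t / (100 * (u + L)) := by field_simp; ring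
    rw [this]
    apply div_le_div_of_nonneg_left ht.le (by positivity)
    linarith
  have hθL : L * (40 * θ) ≤ t / 100 := by
    rw [hθ]
    have : L * (40 * (t / (4000 * (u + L)))) = t * L / (100 * (u + L)) := by field_simp; ring
    rw [this, div_le_div_iff₀ (by positivity) (by norm_num)]
    nlinarith [mul_nonneg ht.le hu0.le]
  have hθ2 : 43 * Λ * (40 * θ) ^ 2 ≤ 43 / 10000 * t := by
    have h1 : (40 * θ) ^ 2 ≤ (t / (100 * u)) ^ 2 := pow_le_pow_left₀ (by positivity) hθu 2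
    have h2 : (t / (100 * u)) ^ 2 = t / (10000 * Λ) := by
      rw [div_pow, mul_pow, hu2]
      field_simp
      norm_num
    rw [h2] at h1
    calc 43 * Λ * (40 * θ) ^ 2 ≤ 43 * Λ * (t / (10000 * Λ)) :=
          mul_le_mul_of_nonneg_left h1 (by positivity)
      _ = 43 / 10000 * t := by field_simp
  have hsmall : α + 43 * Λ * (40 * θ) ^ 2 + L * (40 * θ) < (17 / 300 - 0) * Fintype.card T := by
    have : (17 / 300 - 0) * t ≤ (17 / 300 - 0) * Fintype.card T :=
      mul_le_mul_of_nonneg_left hT (by norm_num)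
    linarith
  have h1 : (I.card : ℝ) * θ ≤ V := by
    rcases hF with hF | hF
    · exact gen_lower μ hμ F P f hF K α (43 * Λ) L hα (by positivity) hL0 rd hsub 0 I V hV h θ hθ0
        hsmall
    · exact gen_lower μ hμ F P (fun x => !f x) (approximates_not hF) K α (43 * Λ) L hα
        (by positivity) hL0 rd hsub 0 I V hV (fun i hi => asks_not (h i hi)) θ hθ0 hsmall
  rw [← hu]
  have h2 : (I.card : ℝ) * t = 4000 * (u + L) * (I.card * θ) := by
    rw [hθ]
    field_simp
  rw [h2]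
  exact mul_le_mul_of_nonneg_left h1 (by positivity)

end Pool.Agent.L7h80.NX
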