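import Mathlib
import Pool.Agent.L7h80.NX.Count
import Pool.Agent.L7h80.NX.Circ

set_option autoImplicit false
set_option linter.unusedSectionVars false

/-! # Subfunctions of circuits over networks -/

namespace Pool.Agent.L7h80.NX

open Finset Pool.Agent.Y638.RF

section price

variable {ι : Type} [DecidableEq ι] {W : ℕ}

lemma Gate.dep_a (g : Gate W) (d : Fin W → Finset ι) : g.dep d g.a = d g.a ∪ d g.b := by
  unfold Gate.dep
  rw [Function.update_of_ne g.ne, Function.update_self]

lemma Gate.dep_b (g : Gate W) (d : Fin W → Finset ι) : g.dep d g.b = d g.a ∪ d g.b := by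
  unfold Gate.dep
  rw [Function.update_self]

lemma Gate.dep_of (g : Gate W) (d : Fin W → Finset ι) (t : Fin W) (ha : t ≠ g.a)
    (hb : t ≠ g.b) : g.dep d t = d t := by
  unfold Gate.dep
  rw [Function.update_of_ne hb, Function.update_of_ne ha]

open Classical in
/-- the number of the gates with a price whose arguments may depend on item `i` -/
noncomputable def touch (i : ι) : List (Gate W) → (Fin W → Finset ι) → ℕ
  | [], _ => 0
  | g :: gs, d => (if ¬ Nonexp g.fn ∧ i ∈ d g.a ∪ d g.b then 1 else 0) + touch i gs (g.dep d)

lemma sum_touch (I : Finset ι) (gs : List (Gate W)) : ∀ d : Fin W → Finset ι,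
    ∑ i ∈ I, touch i gs d ≤ price gs d := by
  classical
  induction gs with
  | nil => intro d; simp [touch, price]
  | cons g gs ih =>
    intro d
    unfold price
    have h : ∀ i, touch i (g :: gs) d = (if ¬ Nonexp g.fn ∧ i ∈ d g.a ∪ d g.b then 1 else 0) +
        touch i gs (g.dep d) := fun i => rfl
    rw [sum_congr rfl fun i _ => h i, sum_add_distrib]
    refine Nat.add_le_add ?_ (ih _)
    by_cases hg : Nonexp g.fn
    · rw [if_pos hg]
      apply le_of_eq
      apply sum_eq_zero
      intro i _
      rw [if_neg (by tauto)]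
    · rw [if_neg hg, ← card_filter]
      apply card_le_card
      intro i hi
      rw [mem_filter] at hi
      exact hi.2.2

lemma expa_le {X : Type} (i : ι) (gs : List (Gate W)) : ∀ (b : X → Fin W → Bool)
    (d : Fin W → Finset ι), (∀ a, i ∉ d a → Cst fun x => b x a) → expa gs b ≤ touch i gs d := by
  classical
  induction gs with
  | nil => intro b d _; simp [expa]
  | cons g gs ih =>
    intro b d h
    unfold expa touch
    refine Nat.add_le_add ?_ (ih _ _ ?_)
    · by_cases h1 : Nonexp g.fn ∨ ((Cst fun x => b x g.a) ∧ Cst fun x => b x g.b)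
      · rw [if_pos h1]
        exact Nat.zero_le _
      · rw [if_neg h1, if_pos]
        refine ⟨fun h2 => h1 (Or.inl h2), ?_⟩
        by_contra h2
        rw [mem_union, not_or] at h2
        exact h1 (Or.inr ⟨h _ h2.1, h _ h2.2⟩)
    · intro a ha
      have key : i ∉ d g.a ∪ d g.b → (Cst fun x => g.app (b x) g.a) ∧
          Cst fun x => g.app (b x) g.b := by
        intro h2
        rw [mem_union, not_or] at h2
        obtain ⟨α, hα⟩ := h _ h2.1
        obtain ⟨β, hβ⟩ := h _ h2.2
        refine ⟨⟨(g.fn α β).1, fun x => ?_⟩, ⟨(g.fn α β).2, fun x => ?_⟩⟩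
        · beta_reduce
          rw [g.app_a, show b x g.a = α from hα x, show b x g.b = β from hβ x]
        · beta_reduce
          rw [g.app_b, show b x g.a = α from hα x, show b x g.b = β from hβ x]
      by_cases h1 : a = g.a
      · subst h1
        rw [g.dep_a] at ha
        exact (key ha).1
      · by_cases h2 : a = g.b
        · subst h2
          rw [g.dep_b] at ha
          exact (key ha).2
        · rw [g.dep_of d a h1 h2] at ha
          obtain ⟨β, hβ⟩ := h a ha
          exact ⟨β, fun x => (g.app_of (b x) a h1 h2).trans (hβ x)⟩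

end price

variable {ι : Type} {D : ι → Type} [Fintype ι] [DecidableEq ι] {w q : ℕ}

lemma net_eval_update (N : Net ι D w q) (i : ι) (h : N.reads i = 0) (z : ∀ i, D i) (d : D i) :
    N.eval (Function.update z i d) = N.eval z := by
  have h1 : ∀ k, (N.fml k).reads i = 0 := by
    intro k
    unfold Net.reads at h
    exact (Finset.sum_eq_zero_iff.1 h) k (mem_univ k)
  have h2 : N.Step (Function.update z i d) = N.Step z := by
    funext u v
    unfold Net.Step
    apply propext
    constructor
    · rintro (h3 | ⟨k, h3, h4, h5⟩)
      · exact Or.inl h3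
      · exact Or.inr ⟨k, h3, h4, by rw [Net.accepts_update _ _ (h1 k)] at h5; exact h5⟩
    · rintro (h3 | ⟨k, h3, h4, h5⟩)
      · exact Or.inl h3
      · exact Or.inr ⟨k, h3, h4, by rw [Net.accepts_update _ _ (h1 k)]; exact h5⟩
  unfold Net.eval Net.Accepts
  rw [h2]

lemma sq_sum_ge {α : Type} (s : Finset α) (f : α → ℕ) : ∑ a ∈ s, f a ^ 2 ≤ (∑ a ∈ s, f a) ^ 2 := by
  classical
  induction s using Finset.induction_on with
  | empty => simp
  | insert a s ha ih =>
    rw [sum_insert ha, sum_insert ha]
    nlinarith [Nat.zero_le (f a * ∑ a ∈ s, f a)]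

namespace Circ

/-- The number of the leaves which see item `i` and of the gates with a price whose arguments may
depend on item `i`. -/
noncomputable def reads (i : ι) (C : Circ ι D w q) : ℕ :=
  ∑ a, (C.init a).reads i + touch i C.gates C.sees

lemma reads_fml_le (N : Net ι D w q) (i : ι) : N.reads i ≤ N.size := by
  unfold Net.reads Net.size
  apply sum_le_sum
  intro k _
  have := (N.fml k).reads_le_size i
  omega

theorem sum_reads_le (I : Finset ι) (hw : 1 ≤ w) (C : Circ ι D w q) :
    ∑ i ∈ I, C.reads i ≤ w * C.size := by
  unfold reads size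
  rw [sum_add_distrib, sum_comm, mul_add]
  refine Nat.add_le_add ?_ ?_
  · rw [mul_sum]
    exact sum_le_sum fun a _ => Net.sum_reads_le I hw (C.init a)
  · refine (sum_touch I C.gates C.sees).trans ?_
    nlinarith [Nat.zero_le (price C.gates C.sees)]

theorem reads_le_size (i : ι) (C : Circ ι D w q) : C.reads i ≤ C.size := by
  unfold reads size
  refine Nat.add_le_add (sum_le_sum fun a _ => reads_fml_le _ i) ?_
  have := sum_touch {i} C.gates C.sees
  rw [sum_singleton] at this
  exact this

open Classical in
/-- Few subfunctions. -/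
theorem subfunctions {Y : Type} [Fintype Y] (i : ι) (y : Y → D i) (s M B : ℕ) (hq : 1 ≤ q)
    (hM : 4 * Fintype.card Y * (2 * s + 1) + 2 + s ≤ M)
    (hB : B = 2 * M ^ 5 * q ^ (w - 1)) (C : Circ ι D w q) (hs : C.size ≤ s) :
    ∃ S : Finset (Y → Bool), S.card ≤ NB (C.reads i) * (2 ^ (2 * C.reads i) ^ 2 *
        (2 * B ^ 2) ^ C.reads i) ∧
      ∀ z : (∀ i, D i), (fun v => C.eval (Function.update z i (y v))) ∈ S := by
  have hBpos : 1 ≤ B := (Fml.base_bound (M := M) (B := B) (q := q) (w := w) (by omega) hq hB).2.2
  obtain ⟨L, hL⟩ : ∃ L : Finset (Fin C.wires), L = univ.filter (fun a => (C.init a).reads i ≠ 0) :=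
    ⟨_, rfl⟩
  have hsz : ∀ a, (C.init a).size ≤ s := by
    intro a
    have h1 : (C.init a).size ≤ ∑ a, (C.init a).size :=
      single_le_sum (f := fun a => (C.init a).size) (fun _ _ => Nat.zero_le _) (mem_univ a)
    unfold size at hs
    omega
  choose S hS1 hS2 using fun a => (C.init a).subfunctions i y s M B hq hM hB (hsz a)
  obtain ⟨T, hT1, hT2⟩ := count C.gates C.out L (touch i C.gates C.sees)
  refine ⟨(T ×ˢ Fintype.piFinset (fun a : L => S a.1)).image
    (fun t => fun v => t.1 (fun a => t.2 a v)), ?_, fun z => ?_⟩
  · refine card_image_le.trans ?_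
    rw [card_product, Fintype.card_piFinset]
    have hsumL : ∑ a : L, (C.init a.1).reads i = ∑ a, (C.init a).reads i := by
      rw [Finset.sum_coe_sort L (fun a => (C.init a).reads i), hL, Finset.sum_filter]
      apply sum_congr rfl
      intro a _
      by_cases ha : (C.init a).reads i = 0
      · rw [if_neg (by simpa using ha), ha]
      · rw [if_pos ha]
    have hmemL : ∀ a, a ∈ L → (C.init a).reads i ≠ 0 := by
      intro a ha
      rw [hL, mem_filter] at ha
      exact ha.2
    have hpos : ∀ a : L, 1 ≤ (C.init a.1).reads i := by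
      intro a
      have := hmemL a.1 a.2
      omega
    have hcardL : L.card ≤ ∑ a, (C.init a).reads i := by
      rw [← hsumL]
      calc L.card = ∑ _a : L, 1 := by simp
        _ ≤ _ := sum_le_sum fun a _ => hpos a
    refine Nat.mul_le_mul (hT1.trans (NB_mono ?_)) ?_
    · unfold reads
      omega
    · calc ∏ a : L, (S a.1).card
          ≤ ∏ a : L, (2 ^ ((C.init a.1).reads i + 1) ^ 2 * (2 * B ^ 2) ^ (C.init a.1).reads i) :=
            prod_le_prod' fun a _ => hS1 a.1
        _ = 2 ^ (∑ a : L, ((C.init a.1).reads i + 1) ^ 2) *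
            (2 * B ^ 2) ^ (∑ a : L, (C.init a.1).reads i) := by
            rw [prod_mul_distrib, prod_pow_eq_pow_sum, prod_pow_eq_pow_sum]
        _ ≤ _ := by
            have h1 : ∑ a : L, (C.init a.1).reads i ≤ C.reads i := by
              rw [hsumL]
              unfold reads
              omega
            refine Nat.mul_le_mul (Nat.pow_le_pow_right (by norm_num) ?_)
              (Nat.pow_le_pow_right (by have := Nat.one_le_pow 2 B (by omega); omega) h1)
            calc ∑ a : L, ((C.init a.1).reads i + 1) ^ 2
                ≤ (∑ a : L, ((C.init a.1).reads i + 1)) ^ 2 :=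
                  sq_sum_ge _ _
              _ ≤ (2 * C.reads i) ^ 2 := by
                  apply Nat.pow_le_pow_left
                  calc ∑ a : L, ((C.init a.1).reads i + 1) ≤ ∑ a : L, 2 * (C.init a.1).reads i :=
                        sum_le_sum fun a _ => by have := hpos a; omega
                    _ = 2 * ∑ a : L, (C.init a.1).reads i := by rw [mul_sum]
                    _ ≤ 2 * C.reads i := Nat.mul_le_mul_left _ h1
  · rw [mem_image]
    have hdead : ∀ a, a ∉ L → ∀ d, (C.init a).eval (Function.update z i d) = (C.init a).eval z := by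
      intro a ha d
      apply net_eval_update
      by_contra h
      exact ha (by rw [hL, mem_filter]; exact ⟨mem_univ _, h⟩)
    refine ⟨(fun v : L → Bool => run C.gates (mix L v fun a => (C.init a).eval z) C.out,
      fun a v => (C.init a.1).eval (Function.update z i (y v))), ?_, ?_⟩
    · rw [mem_product, Fintype.mem_piFinset]
      refine ⟨hT2 _ ?_, fun a => hS2 a.1 z⟩
      apply expa_le i
      intro a ha
      have haL : a ∉ L := by
        intro h
        apply ha
        unfold sees
        rw [hL, mem_filter] at h
        rw [mem_filter]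
        exact ⟨mem_univ _, h.2⟩
      exact ⟨(C.init a).eval z, fun v => by simp only [mix, dif_neg haL]⟩
    · funext v
      unfold eval
      have : mix L (fun a : L => (C.init a.1).eval (Function.update z i (y v)))
          (fun a => (C.init a).eval z) = fun a => (C.init a).eval (Function.update z i (y v)) := by
        funext a
        unfold mix
        by_cases ha : a ∈ L
        · rw [dif_pos ha]
        · rw [dif_neg ha, hdead a ha]
      exact congrArg (fun u => run C.gates u C.out) this

end Circ

end Pool.Agent.L7h80.NX
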