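import Pool.Agent.Y638.RF.NetTri
import Pool.Agent.L7h80.NX.Lower
import Pool.Agent.L7h80.NX.Sub

set_option autoImplicit false

/-! # Triangles and circuits in which copying costs -/

namespace Pool.Agent.L7h80.NX

open Finset Pool.Agent.TH697.Form Pool.Agent.TH697.Row Pool.Agent.Y638.RF

section few

variable {ι : Type} {D : ι → Type} [Fintype ι] [DecidableEq ι] {w q : ℕ}

theorem Circ.fewSub (C : Circ ι D w q) (s K M : ℕ) (hq : 1 ≤ q) (hw : 1 ≤ w)
    (hM : 4 * K * (2 * s + 1) + 2 + s ≤ M) (hM2 : 256 * s ^ 2 + 1 ≤ M) (hs : C.size ≤ s) :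
    FewSub K (1 + Real.logb 2 M) (43 * Real.logb 2 M)
      (3 + 10 * Real.logb 2 M + 2 * (w - 1) * Real.logb 2 q) C.eval (fun i => C.reads i) := by
  classical
  intro i A hA
  have h6 : (0 : ℝ) < Real.log 2 := Real.log_pos (by norm_num)
  have hM1 : (2 : ℝ) ≤ M := by exact_mod_cast (by omega : 2 ≤ M)
  have hlM : Real.log 2 ≤ Real.log (M : ℝ) := Real.log_le_log (by norm_num) hM1
  have hlq : 0 ≤ Real.log (q : ℝ) := Real.log_nonneg (by exact_mod_cast hq)
  have hw' : ((w - 1 : ℕ) : ℝ) = (w : ℝ) - 1 := by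
    rw [Nat.cast_sub hw, Nat.cast_one]
  have hw1 : (0 : ℝ) ≤ (w : ℝ) - 1 := by rw [← hw']; positivity
  obtain ⟨B, hB⟩ : ∃ B, B = 2 * M ^ 5 * q ^ (w - 1) := ⟨_, rfl⟩
  have hBpos : 0 < B := by
    rw [hB]
    have : 0 < M := by omega
    positivity
  have hM' : 4 * Fintype.card {d // d ∈ A} * (2 * s + 1) + 2 + s ≤ M := by
    rw [Fintype.card_coe]
    have : 4 * A.card * (2 * s + 1) ≤ 4 * K * (2 * s + 1) :=
      Nat.mul_le_mul_right _ (Nat.mul_le_mul_left _ hA)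
    omega
  obtain ⟨S, hS1, hS2⟩ := C.subfunctions i (fun v : {d // d ∈ A} => v.1) s M B hq hM' hB hs
  refine ⟨S, ?_, hS2⟩
  obtain ⟨R, hR⟩ : ∃ R, R = C.reads i := ⟨_, rfl⟩
  rw [← hR] at hS1
  beta_reduce
  rw [← hR]
  have hRs : R ≤ s := by
    rw [hR]
    exact (C.reads_le_size i).trans hs
  obtain ⟨L, hL⟩ : ∃ L : ℝ, L = 3 + 10 * Real.logb 2 M + 2 * (w - 1) * Real.logb 2 q := ⟨_, rfl⟩
  have hLB : L * Real.log 2 = Real.log (2 * (B : ℝ) ^ 2) := by
    have hM' : (0 : ℝ) < M := by linarith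
    have hq' : (0 : ℝ) < q := by exact_mod_cast hq
    have hB' : (0 : ℝ) < B := by exact_mod_cast hBpos
    rw [hL, Real.log_mul (by norm_num) (by positivity), Real.log_pow, hB]
    push_cast
    rw [Real.log_mul (by positivity) (by positivity), Real.log_mul (by positivity) (by positivity),
      Real.log_pow, Real.log_pow, hw', Real.logb, Real.logb]
    field_simp
    push_cast
    ring
  have hΛ : Real.logb 2 M * Real.log 2 = Real.log M := by
    rw [Real.logb]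
    field_simp
  rw [← hL]
  have hB' : (0 : ℝ) < B := by exact_mod_cast hBpos
  have hL0 : 0 ≤ L := by
    rw [hL, Real.logb, Real.logb]
    have : 0 ≤ Real.log (M : ℝ) := h6.le.trans hlM
    positivity
  have hΛ0 : 0 ≤ Real.logb 2 (M : ℝ) := by
    rw [Real.logb]
    have : 0 ≤ Real.log (M : ℝ) := h6.le.trans hlM
    positivity
  rcases Nat.eq_zero_or_pos S.card with h0 | h0
  · rw [h0, Nat.cast_zero, Real.log_zero]
    positivity
  have h4 : (S.card : ℝ) ≤ (2 * (256 * (R : ℝ) ^ 2 + 1) ^ (39 * R ^ 2 + 1)) *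
      (2 ^ (2 * R) ^ 2 * (2 * (B : ℝ) ^ 2) ^ R) := by
    have := hS1
    unfold NB at this
    exact_mod_cast this
  have h5 := Real.log_le_log (by exact_mod_cast h0) h4
  have hp : (0 : ℝ) < 256 * (R : ℝ) ^ 2 + 1 := by positivity
  rw [Real.log_mul (by positivity) (by positivity), Real.log_mul (by norm_num) (by positivity),
    Real.log_mul (by positivity) (by positivity), Real.log_pow, Real.log_pow, Real.log_pow,
    ← hLB] at h5
  have h7 : Real.log (256 * (R : ℝ) ^ 2 + 1) ≤ Real.log M := by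
    apply Real.log_le_log hp
    have : 256 * R ^ 2 + 1 ≤ M := by
      have : R ^ 2 ≤ s ^ 2 := Nat.pow_le_pow_left hRs 2
      omega
    exact_mod_cast this
  push_cast at h5
  have h8 : (39 * (R : ℝ) ^ 2 + 1) * Real.log (256 * (R : ℝ) ^ 2 + 1) ≤
      (39 * (R : ℝ) ^ 2 + 1) * Real.log M := mul_le_mul_of_nonneg_left h7 (by positivity)
  have h9 : (4 * (R : ℝ) ^ 2) * Real.log 2 ≤ (4 * (R : ℝ) ^ 2) * Real.log M :=
    mul_le_mul_of_nonneg_left hlM (by positivity)
  have e1 : (1 + Real.logb 2 M + 43 * Real.logb 2 M * (R : ℝ) ^ 2 + L * R) * Real.log 2 =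
      Real.log 2 + Real.log M + 43 * (R : ℝ) ^ 2 * Real.log M + R * (L * Real.log 2) := by
    rw [← hΛ]
    ring
  rw [e1]
  have e2 : ((2 * (R : ℝ)) ^ 2) * Real.log 2 = (4 * (R : ℝ) ^ 2) * Real.log 2 := by ring
  rw [e2] at h5
  linarith

end few

namespace Tri

open Pool.Agent.TH457.Ary.Tri
open Pool.Agent.Y638.RF.Tri (logb_m asks)
open Pool.Agent.TH457.Ary.Sat (exists_k)

variable {m c w : ℕ}

/-- the arithmetic -/
theorem arith {m k c w l s : ℝ} (hm : 0 ≤ m) (hk : 4 ≤ k) (hc : 1 ≤ c) (hw : 1 ≤ w)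
    (hl : l ≤ 5 / 2 * k) (hs : 0 ≤ s)
    (h : m * (m * k * (1 / 2)) ≤ 4000 * (Real.sqrt (5 * l * (m * k * (1 / 2))) +
      (3 + 10 * (5 * l) + 2 * (w - 1) * (c * l))) * (w * s)) :
    m ^ 2 ≤ 20000 * w * (Real.sqrt m + 51 * c * w) * s := by
  have h1 : Real.sqrt (5 * l * (m * k * (1 / 2))) ≤ 5 / 2 * k * Real.sqrt m := by
    have e0 : Real.sqrt (5 * l * (m * k * (1 / 2))) ≤ Real.sqrt ((5 / 2 * k) ^ 2 * m) := by
      apply Real.sqrt_le_sqrt
      have h2 : 0 ≤ m * k := by positivity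
      nlinarith
    have e1 : Real.sqrt ((5 / 2 * k) ^ 2 * m) = 5 / 2 * k * Real.sqrt m := by
      rw [Real.sqrt_mul (by positivity), Real.sqrt_sq (by linarith)]
    rw [e1] at e0
    exact e0
  have h2 : 3 + 10 * (5 * l) + 2 * (w - 1) * (c * l) ≤ 126 * (c * w * k) := by
    have h4 : (w - 1) * (c * l) ≤ (w - 1) * (c * (5 / 2 * k)) :=
      mul_le_mul_of_nonneg_left (mul_le_mul_of_nonneg_left hl (by linarith)) (by linarith)
    have h5 : 3 + 10 * (5 * l) ≤ 126 * k := by linarith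
    have h6 : k ≤ c * k := by nlinarith
    have h7 : 0 ≤ (w - 1) * (c * k) := by
      apply mul_nonneg (by linarith)
      positivity
    nlinarith
  have h3 : m * (m * k * (1 / 2)) ≤ 4000 * (5 / 2 * k * Real.sqrt m + 126 * (c * w * k)) *
      (w * s) := by
    refine h.trans ?_
    apply mul_le_mul_of_nonneg_right _ (by positivity)
    linarith
  have h4 : k * m ^ 2 ≤ k * (20000 * w * (Real.sqrt m + 252 / 5 * c * w) * s) := by
    have e1 : m * (m * k * (1 / 2)) = k * m ^ 2 / 2 := by ring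
    have e2 : 4000 * (5 / 2 * k * Real.sqrt m + 126 * (c * w * k)) * (w * s) =
        k * (20000 * w * (Real.sqrt m + 252 / 5 * c * w) * s) / 2 := by ring
    rw [e1, e2] at h3
    linarith
  have h5 := le_of_mul_le_mul_left h4 (by linarith)
  refine h5.trans ?_
  apply mul_le_mul_of_nonneg_right _ hs
  apply mul_le_mul_of_nonneg_left _ (by linarith)
  have : 0 ≤ c * w := by positivity
  nlinarith

theorem circ_bound (hm : 1000 ≤ m) (hc : 1 ≤ c) (hw : 1 ≤ w) {Ω : Type} [Fintype Ω] (μ : Ω → ℝ)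
    (hμ : IsProb μ) (s : ℕ) (F : Ω → Circ (Fin m) (fun _ => Edge (2 * m)) w (m ^ c))
    (hs : ∀ ω, (F ω).size ≤ s)
    (hF : ApproximatesOn μ (fun ω => (F ω).eval) Simple triangle ∨
      ApproximatesOn μ (fun ω x => !(F ω).eval x) Simple triangle) :
    (m : ℝ) ^ 2 ≤ 20000 * w * (Real.sqrt m + 51 * c * w) * s := by
  classical
  have hw' : (1 : ℝ) ≤ w := by exact_mod_cast hw
  have hc' : (1 : ℝ) ≤ c := by exact_mod_cast hc
  have hs0 : (0 : ℝ) ≤ s := Nat.cast_nonneg s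
  have hm' : (1000 : ℝ) ≤ m := by exact_mod_cast hm
  by_cases hsm : m ^ 2 ≤ s
  · have h1 : (m : ℝ) ^ 2 ≤ s := by exact_mod_cast hsm
    have h2 : (1 : ℝ) ≤ Real.sqrt m + 51 * c * w := by
      have := Real.sqrt_nonneg (m : ℝ)
      have : (1 : ℝ) ≤ c * w := by nlinarith
      nlinarith
    have h3 : (1 : ℝ) ≤ 20000 * w * (Real.sqrt m + 51 * c * w) := by nlinarith
    nlinarith
  obtain ⟨k, hk, hk1, hk2⟩ := exists_k (m := m) (by omega)
  have hM : 4 * (4 * m ^ 2) * (2 * s + 1) + 2 + s ≤ m ^ 5 := by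
    have h1 : s < m ^ 2 := by omega
    have h2 : 4 * (4 * m ^ 2) * (2 * s + 1) ≤ 4 * (4 * m ^ 2) * (2 * m ^ 2) :=
      Nat.mul_le_mul_left _ (by omega)
    have h3 : 4 * (4 * m ^ 2) * (2 * m ^ 2) = 32 * m ^ 4 := by ring
    have h4 : m ^ 2 ≤ m ^ 4 := Nat.pow_le_pow_right (by omega) (by norm_num)
    have h5 : 1000 * m ^ 4 ≤ m ^ 5 := by
      calc 1000 * m ^ 4 ≤ m * m ^ 4 := Nat.mul_le_mul_right _ hm
        _ = m ^ 5 := by ring
    have h6 : 1 ≤ m ^ 4 := Nat.one_le_pow _ _ (by omega)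
    omega
  have hM2 : 256 * s ^ 2 + 1 ≤ m ^ 5 := by
    have h1 : s ^ 2 ≤ (m ^ 2) ^ 2 := Nat.pow_le_pow_left (by omega) 2
    have h5 : 1000 * m ^ 4 ≤ m ^ 5 := by
      calc 1000 * m ^ 4 ≤ m * m ^ 4 := Nat.mul_le_mul_right _ hm
        _ = m ^ 5 := by ring
    have h6 : 1 ≤ m ^ 4 := Nat.one_le_pow _ _ (by omega)
    have h7 : (m ^ 2) ^ 2 = m ^ 4 := by ring
    omega
  have hk' : (4 : ℝ) ≤ k := by exact_mod_cast hk
  have hl := logb_m hk (by omega) hk2
  have hl1 : (1 : ℝ) ≤ Real.logb 2 m := by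
    rw [Real.le_logb_iff_rpow_le (by norm_num) (by linarith)]
    simp only [Real.rpow_one]
    linarith
  have h := gen_bound (D := fun _ : Fin m => Edge (2 * m)) (T := Fin (M m k) × Fin k) μ hμ
    (fun ω => (F ω).eval) Simple triangle hF (4 * m ^ 2) (1 + Real.logb 2 ((m ^ 5 : ℕ) : ℝ))
    (Real.logb 2 ((m ^ 5 : ℕ) : ℝ))
    (3 + 10 * Real.logb 2 ((m ^ 5 : ℕ) : ℝ) + 2 * (w - 1) * Real.logb 2 ((m ^ c : ℕ) : ℝ))
    (by
      push_cast
      rw [Real.logb_pow]
      positivity)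
    (by
      push_cast
      rw [Real.logb_pow]
      positivity)
    (by
      push_cast
      rw [Real.logb_pow, Real.logb_pow]
      have : (0 : ℝ) ≤ (w : ℝ) - 1 := by linarith
      positivity)
    (fun ω i => (F ω).reads i)
    (fun ω => (F ω).fewSub s (4 * m ^ 2) (m ^ 5) (Nat.one_le_pow _ _ (by omega)) hw hM hM2 (hs ω))
    univ (w * s) (fun ω => by
      have := ((F ω).sum_reads_le univ hw).trans (Nat.mul_le_mul_left w (hs ω))
      exact_mod_cast this)
    (fun p _ => asks (by omega) hk1 p) ((m : ℝ) * k * (1 / 2)) (by positivity) (by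
      have := card_T (m := m) (k := k) (by omega) hk1
      linarith)
    (by
      push_cast
      rw [Real.logb_pow]
      push_cast
      nlinarith)
  rw [card_univ (α := Fin m), Fintype.card_fin, Nat.cast_pow m 5, Nat.cast_pow m c,
    Real.logb_pow, Real.logb_pow] at h
  refine arith (l := Real.logb 2 (m : ℝ)) (Nat.cast_nonneg m) hk' hc' hw' hl hs0 ?_
  push_cast at h ⊢
  exact h

end Tri

end Pool.Agent.L7h80.NX
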